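import Pool.Agent.Lib.MP_8b1d3b_lc.Hc.Main

set_option autoImplicit false

/-- For all large `n` and every set `J` of indices, the sum of `∏ i, x (i, σ i)` over the
permutations `σ` all of whose cycles meet `J` has a skew straight-line program with at most
`(2 - 10 ^ (-12)) ^ n` steps, over every commutative ring. All indices: the permanent.
One index: the Hamiltonian cycle polynomial. -/
theorem Pool.Agent.Lib.MP_8b1d3b_lc.Hc.CycleCoversKept.result : ∃ n₀ : ℕ,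
    ∀ (K : Type*) [CommRing K], ∀ n : ℕ, n₀ ≤ n → ∀ J : Finset (Fin n),
      ∃ (m : ℕ) (g : Fin (m + 1) → MvPolynomial (Fin n × Fin n) K),
        ((m + 1 : ℕ) : ℝ) ≤ (2 - 1 / 10 ^ 12 : ℝ) ^ n ∧
        (∀ i : Fin (m + 1),
          (∃ v : Fin n × Fin n, g i = MvPolynomial.X v) ∨
          (∃ c : K, g i = MvPolynomial.C c) ∨
          (∃ a b : Fin (m + 1), a < i ∧ b < i ∧ g i = g a + g b) ∨
          ∃ a : Fin (m + 1), a < i ∧
            ((∃ v : Fin n × Fin n, g i = g a * MvPolynomial.X v) ∨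
              ∃ c : K, g i = g a * MvPolynomial.C c)) ∧
        g (Fin.last m) =
          ∑ σ : Equiv.Perm (Fin n) with (∀ i : Fin n, ∃ j ∈ J, σ.SameCycle i j),
            ∏ i : Fin n, (MvPolynomial.X (i, σ i) : MvPolynomial (Fin n × Fin n) K) := by
  obtain ⟨n₀, h⟩ := Pool.Agent.Lib.MP_8b1d3b_lc.Hc.main
  refine ⟨n₀, fun K _ n hn J => ?_⟩
  obtain ⟨c, h1, h2⟩ := h n hn K J
  obtain ⟨m, g, h3, h4, h5⟩ := h2.last
  refine ⟨m, g, le_trans (by exact_mod_cast h3) h1, fun i => ?_, h5⟩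
  rcases h4 i with (h6 | ⟨c, -, h6⟩) | h6 | ⟨a, ha, z, ⟨v, rfl⟩ | ⟨c, -, rfl⟩, h6⟩
  · exact Or.inl h6
  · exact Or.inr (Or.inl ⟨c, h6⟩)
  · exact Or.inr (Or.inr (Or.inl h6))
  · exact Or.inr (Or.inr (Or.inr ⟨a, ha, Or.inl ⟨v, h6⟩⟩))
  · exact Or.inr (Or.inr (Or.inr ⟨a, ha, Or.inr ⟨c, h6⟩⟩))

/-- For the set of all indices the sum is the permanent. -/
theorem Pool.Agent.Lib.MP_8b1d3b_lc.Hc.CycleCoversKept.case_all {n : ℕ} {R : Type*} [CommRing R]
    (x : Matrix (Fin n) (Fin n) R) :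
    ∑ σ : Equiv.Perm (Fin n) with
        (∀ i : Fin n, ∃ j ∈ (Finset.univ : Finset (Fin n)), σ.SameCycle i j), ∏ i, x i (σ i) =
      x.permanent := by
  rw [Finset.filter_true_of_mem fun σ _ i =>
    ⟨i, Finset.mem_univ i, Equiv.Perm.SameCycle.refl σ i⟩, ← Matrix.permanent_transpose]
  rfl

/-- For one index the permutations are the cycles of full length. -/
theorem Pool.Agent.Lib.MP_8b1d3b_lc.Hc.CycleCoversKept.case_one {n : ℕ} (hn : 2 ≤ n) (s : Fin n)
    (σ : Equiv.Perm (Fin n)) :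
    (∀ i : Fin n, ∃ j ∈ ({s} : Finset (Fin n)), σ.SameCycle i j) ↔
      σ.IsCycle ∧ σ.support = Finset.univ := by
  simp only [Finset.mem_singleton, exists_eq_left]
  have : Nontrivial (Fin n) := Fin.nontrivial_iff_two_le.2 hn
  constructor
  · intro h
    have h1 : ∀ i, σ i ≠ i := fun i hi => by
      obtain ⟨j, hj⟩ := exists_ne i
      exact hj (((h i).trans (h j).symm).eq_of_left hi).symm
    exact ⟨⟨s, h1 s, fun y _ => (h y).symm⟩, Finset.eq_univ_of_forall fun i =>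
      Equiv.Perm.mem_support.2 (h1 i)⟩
  · rintro ⟨h1, h2⟩ i
    exact h1.sameCycle (Equiv.Perm.mem_support.1 (h2 ▸ Finset.mem_univ i))
      (Equiv.Perm.mem_support.1 (h2 ▸ Finset.mem_univ s))
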