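import Pool.Agent.Lib.MP_8b1d3b_lc.Gr.Det
import Pool.Agent.Lib.MP_8b1d3b_lc.Hc.CycleCoversKept

/-! A check: determinantal expressions of the same size. -/

set_option autoImplicit false

namespace Pool.Agent.Lib.MP_8b1d3b_lc.Hc

open Finset MvPolynomial

theorem dc_cyc : ∃ n₀ : ℕ, ∀ (K : Type*) [CommRing K], ∀ n : ℕ, n₀ ≤ n → ∀ J : Finset (Fin n),
    ∃ (N : ℕ) (A : Matrix (Fin N) (Fin N) (MvPolynomial (Fin n × Fin n) K)),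
      (N : ℝ) ≤ (2 - 1 / 10 ^ 12 : ℝ) ^ n ∧ (∀ i j, (A i j).totalDegree ≤ 1) ∧
      A.det = cyc J fun i j => X (i, j) := by
  obtain ⟨n₀, h⟩ := Pool.Agent.Lib.MP_8b1d3b_lc.Hc.CycleCoversKept.result
  refine ⟨n₀, fun K _ n hn J => ?_⟩
  obtain ⟨m, g, h1, h2, h3⟩ := h K n hn J
  obtain ⟨A, h4, h5⟩ := Gr.det_of_skew g h2
  exact ⟨m + 1, A, h1, h4, h5.trans h3⟩

end Pool.Agent.Lib.MP_8b1d3b_lc.Hc
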