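import Pool.Agent.Lib.MP_8b1d3b_lc.Hc.Tr

/-! A program read cyclically from the first minimum of the height. -/

set_option autoImplicit false

namespace Pool.Agent.Lib.MP_8b1d3b_lc.Hc

open Finset MvPolynomial Gr

variable {κ : Type} [DecidableEq κ] {R : Type*} [CommRing R] {At : Set R}

theorem cr_tri {m : ℕ} (E : Matrix (Fin m) (Fin m) R) (hE : ∀ a b, b ≤ a → E a b = 0) (k : ℕ) :
    ∀ a b : Fin m, b.val < a.val + k → (E ^ k) a b = 0 := by
  induction k with
  | zero =>
    intro a b h
    rw [pow_zero, Matrix.one_apply_ne]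
    rintro rfl
    omega
  | succ k ih =>
    intro a b h
    rw [pow_succ, Matrix.mul_apply]
    refine sum_eq_zero fun l _ => ?_
    by_cases h1 : l.val < a.val + k
    · rw [ih a l h1, zero_mul]
    · rw [hE l b (Fin.le_def.2 (by omega)), mul_zero]

theorem cr_iter {Q : Type} [Fintype Q] [DecidableEq Q] (E : Matrix Q Q R) (v : Q → R) (o : Q)
    (hv : ∀ b, v b = (if o = b then 1 else 0) + ∑ a, v a * E a b) (N : ℕ) (b : Q) :
    v b = ∑ k ∈ range N, (E ^ k) o b + ∑ a, v a * (E ^ N) a b := by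
  induction N with
  | zero => simp [Matrix.one_apply]
  | succ N ih =>
    rw [sum_range_succ, add_assoc, ih]
    congr 1
    have h1 : ∀ a, v a * (E ^ N) a b =
        (if o = a then (E ^ N) a b else 0) + ∑ l, v l * (E l a * (E ^ N) a b) := fun a => by
      conv_lhs => rw [hv a]
      rw [add_mul, sum_mul]
      simp only [mul_assoc, ite_mul, one_mul, zero_mul]
    simp only [h1, sum_add_distrib, sum_ite_eq, mem_univ, if_true]
    congr 1
    rw [sum_comm]
    simp only [pow_succ', Matrix.mul_apply, mul_sum]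

/-- a program is a sum of entries of powers of a matrix of letters -/
theorem exists_matrix (hZ : ∀ z : ℤ, (z : R) ∈ At) {c : ℕ} {p : R} (h : Pr At c p) :
    ∃ (m : ℕ) (E : Matrix (Fin (m + 1)) (Fin (m + 1)) R) (j : Fin (m + 1)), m ≤ c ∧
      (∀ a b, E a b ∈ At) ∧ p = ∑ k ∈ range (m + 1), (E ^ k) 0 j := by
  obtain ⟨g, n, hn, hg, hp⟩ := Reach.st h
  obtain ⟨i, hi, rfl⟩ := hp p rfl
  have h0 : (0 : R) ∈ At := by simpa using hZ 0
  let v : Fin (n + 1) → R := fun a => if a.val = 0 then 1 else g (a.val - 1)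
  have hv : ∀ (a : ℕ) (ha : a + 1 < n + 1), v ⟨a + 1, ha⟩ = g a := fun a ha => by simp [v]
  have hc : ∀ b : Fin (n + 1), ∃ col : Fin (n + 1) → R, (∀ a, col a ∈ At) ∧
      (∀ a, b ≤ a → col a = 0) ∧ v b = (if 0 = b then 1 else 0) + ∑ a, v a * col a := by
    rintro ⟨_ | b, hb⟩
    · exact ⟨0, fun _ => h0, fun _ _ => rfl, by simp [v]⟩
    · have hb0 : ¬ (0 : Fin (n + 1)) = ⟨b + 1, hb⟩ := fun h => by simp [Fin.ext_iff] at h
      rw [if_neg hb0, hv]
      simp only [zero_add]
      rcases hg b (by omega) with h1 | ⟨a, ha, ⟨a', ha', h1⟩ | ⟨z, hz, h1⟩⟩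
      · refine ⟨fun x => if x = 0 then g b else 0, fun x => ?_, fun x hx => if_neg ?_, ?_⟩
        · dsimp only
          split_ifs
          exacts [h1, h0]
        · rintro rfl
          simp at hx
        · simp [v]
      · refine ⟨fun x => (((if x = ⟨a + 1, by omega⟩ then 1 else 0) +
          (if x = ⟨a' + 1, by omega⟩ then 1 else 0) : ℤ) : R), fun x => hZ _, fun x hx => ?_, ?_⟩
        · rw [Fin.le_def] at hx
          dsimp only
          rw [if_neg, if_neg]
          · simp
          · rintro rfl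
            simp at hx
            omega
          · rintro rfl
            simp at hx
            omega
        · simp [mul_add, sum_add_distrib, hv, h1]
      · refine ⟨fun x => if x = ⟨a + 1, by omega⟩ then z else 0, fun x => ?_,
          fun x hx => if_neg ?_, ?_⟩
        · dsimp only
          split_ifs
          exacts [hz, h0]
        · rintro rfl
          simp [Fin.le_def] at hx
          omega
        · simp [hv, h1]
  choose col h1 h2 h3 using hc
  refine ⟨n, Matrix.of fun a b => col b a, ⟨i + 1, by omega⟩, hn, fun a b => h1 b a, ?_⟩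
  have h4 := cr_iter (Matrix.of fun a b => col b a) v 0 h3 (n + 1) ⟨i + 1, by omega⟩
  rw [hv] at h4
  rw [h4, sum_eq_zero (s := univ), add_zero]
  intro a _
  rw [cr_tri (Matrix.of fun a b => col b a) (fun a b h => h2 b a h) _ _ _ (by simp only; omega),
    mul_zero]

section
variable (ω : κ → ℤ)

/-- the monomials of weight at least `m` -/
noncomputable def cr_tau (m : ℤ) (g : MvPolynomial κ R) : MvPolynomial κ R :=
  ∑ d ∈ g.support, if m ≤ Finsupp.weight ω d then monomial d (coeff d g) else 0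

theorem cr_coeff_tau (m : ℤ) (g : MvPolynomial κ R) (d : κ →₀ ℕ) :
    coeff d (cr_tau ω m g) = if m ≤ Finsupp.weight ω d then coeff d g else 0 := by
  rw [cr_tau, coeff_sum, sum_eq_single d]
  · split_ifs
    · rw [coeff_monomial, if_pos rfl]
    · rfl
  · intro e _ he
    split_ifs
    · rw [coeff_monomial, if_neg he]
    · rfl
  · intro h
    rw [notMem_support_iff.1 h]
    simp

theorem cr_co_tau (m : ℤ) (g : MvPolynomial κ R) (S : Finset κ) :
    co S (cr_tau ω m g) = if m ≤ wt ω S then co S g else 0 := by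
  rw [co_apply, cr_coeff_tau, weight_ind]
  rfl

theorem cr_tau_add (m : ℤ) (g g' : MvPolynomial κ R) :
    cr_tau ω m (g + g') = cr_tau ω m g + cr_tau ω m g' := by
  ext d
  simp only [coeff_add, cr_coeff_tau]
  split_ifs <;> simp

/-- the truncation as an additive map -/
noncomputable def cr_t (m : ℤ) : MvPolynomial κ R →+ MvPolynomial κ R :=
  AddMonoidHom.mk' (cr_tau ω m) (cr_tau_add ω m)

theorem cr_t_hom (m : ℤ) {g : MvPolynomial κ R} {n : ℤ} (hg : IsWeightedHomogeneous ω g n) :
    cr_t ω m g = if m ≤ n then g else 0 := by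
  ext d
  change coeff d (cr_tau ω m g) = _
  rw [cr_coeff_tau]
  by_cases h : coeff d g = 0
  · split_ifs <;> simp [h]
  · rw [hg h]
    split_ifs <;> simp

variable {Q : Type} [Fintype Q] [DecidableEq Q] (E : Matrix Q Q (MvPolynomial κ R))

/-- truncate, then read one letter -/
noncomputable def cr_T (m : ℤ) : AddMonoid.End (Q → MvPolynomial κ R) :=
  AddMonoidHom.mk' (fun G l => ∑ a, cr_t ω m (G a) * E a l) fun G G' => by
    funext l
    simp only [Pi.add_apply, map_add, add_mul, sum_add_distrib]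

omit [DecidableEq Q] in
theorem cr_T_apply (m : ℤ) (G : Q → MvPolynomial κ R) (l : Q) :
    cr_T ω E m G l = ∑ a, cr_t ω m (G a) * E a l := rfl

theorem cr_T_single (m : ℤ) {g : MvPolynomial κ R} {n : ℤ} (hg : IsWeightedHomogeneous ω g n)
    (k : ℕ) (a b : Q) : (cr_T ω E m ^ (k + 1)) (Pi.single a g) b =
      if m ≤ n then ∑ l, (cr_T ω E m ^ k) (Pi.single l (g * E a l)) b else 0 := by
  have h1 : cr_T ω E m (Pi.single a g) =
      if m ≤ n then ∑ l, Pi.single l (g * E a l) else 0 := by
    funext l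
    rw [cr_T_apply, sum_eq_single a]
    · rw [Pi.single_eq_same, cr_t_hom ω m hg]
      split_ifs
      · simp [Finset.sum_apply, Pi.single_apply]
      · simp
    · intro x _ hx
      rw [Pi.single_eq_of_ne hx, map_zero, zero_mul]
    · intro h
      exact absurd (mem_univ a) h
  rw [pow_succ, AddMonoid.End.coe_mul, Function.comp_apply, h1]
  split_ifs
  · rw [map_sum, Finset.sum_apply]
  · rw [map_zero, Pi.zero_apply]

variable (w : Q → Q → ℤ)

/-- walks whose height stays nonnegative -/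
noncomputable def cr_up : ℕ → ℤ → Q → Q → MvPolynomial κ R
  | 0, h, a, b => if 0 ≤ h then (if a = b then 1 else 0) else 0
  | k + 1, h, a, b => if 0 ≤ h then ∑ l, E a l * cr_up k (h + w a l) l b else 0

/-- walks that end at a strict minimum of the height -/
noncomputable def cr_pre : ℕ → ℤ → Q → Q → MvPolynomial κ R
  | 0, x, a, b => if x < 0 then (if a = b then 1 else 0) else 0
  | k + 1, x, a, b => ∑ l, E a l * cr_pre k (max x 0 + w a l) l b

omit [DecidableEq κ] in
theorem cr_split (k : ℕ) (b : Q) : ∀ (x : ℤ) (a : Q), (E ^ k) a b = cr_up E w k x a b +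
    ∑ i ∈ range (k + 1), ∑ q, cr_pre E w i x a q * cr_up E w (k - i) 0 q b := by
  induction k with
  | zero =>
    intro x a
    by_cases h : 0 ≤ x
    · simp [cr_up, cr_pre, h, not_lt.2 h, Matrix.one_apply]
    · simp [cr_up, cr_pre, h, not_le.1 h, Matrix.one_apply]
  | succ k ih =>
    intro x a
    rw [pow_succ', Matrix.mul_apply, sum_range_succ' _ (k + 1)]
    have h1 : ∀ l, E a l * (E ^ k) l b = E a l * cr_up E w k (max x 0 + w a l) l b +
        ∑ i ∈ range (k + 1), ∑ q,
          E a l * cr_pre E w i (max x 0 + w a l) l q * cr_up E w (k - i) 0 q b := fun l => by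
      rw [ih (max x 0 + w a l) l, mul_add]
      simp only [mul_sum, mul_assoc]
    have h2 : ∑ l, E a l * cr_up E w k (max x 0 + w a l) l b = cr_up E w (k + 1) x a b +
        ∑ q, cr_pre E w 0 x a q * cr_up E w (k + 1 - 0) 0 q b := by
      by_cases h : 0 ≤ x
      · simp [cr_up, cr_pre, h, not_lt.2 h]
      · simp [cr_up, cr_pre, h, not_le.1 h, max_eq_right (not_le.1 h).le]
    simp only [h1, sum_add_distrib, h2]
    rw [add_assoc, add_comm (∑ q, cr_pre E w 0 x a q * _)]
    congr 2
    rw [sum_comm]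
    refine sum_congr rfl fun i _ => ?_
    rw [sum_comm]
    simp only [cr_pre, sum_mul, Nat.add_sub_add_right]

variable {E w} (hw : ∀ a b, IsWeightedHomogeneous ω (E a b) (w a b))
include hw

theorem cr_L1 (δ : ℤ) (k : ℕ) (b : Q) : ∀ (a : Q) (g : MvPolynomial κ R) (n : ℤ),
    IsWeightedHomogeneous ω g n →
      cr_t ω δ ((cr_T ω E δ ^ k) (Pi.single a g) b) = g * cr_up E w k (n - δ) a b := by
  induction k with
  | zero =>
    intro a g n hg
    rw [pow_zero, AddMonoid.End.coe_one, id, cr_up]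
    by_cases h : a = b
    · subst h
      rw [Pi.single_eq_same, cr_t_hom ω δ hg]
      simp
    · rw [Pi.single_eq_of_ne' h]
      simp [h]
  | succ k ih =>
    intro a g n hg
    rw [cr_T_single ω E δ hg, cr_up]
    by_cases h : δ ≤ n
    · rw [if_pos h, if_pos (by omega), map_sum, mul_sum]
      refine sum_congr rfl fun l _ => ?_
      rw [ih l _ _ (hg.mul (hw a l)), mul_assoc, show n + w a l - δ = n - δ + w a l by ring]
    · rw [if_neg h, if_neg (by omega), map_zero, mul_zero]

theorem cr_L2 (U : Finset κ) (k : ℕ) (b : Q) : ∀ (a : Q) (g : MvPolynomial κ R) (n x : ℤ),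
    IsWeightedHomogeneous ω g n → co U (g * cr_pre E w k x a b) =
      if x < n - wt ω U then co U ((cr_T ω E (wt ω U + 1) ^ k) (Pi.single a g) b) else 0 := by
  induction k with
  | zero =>
    intro a g n x hg
    rw [pow_zero, AddMonoid.End.coe_one, id, cr_pre]
    by_cases h : a = b
    · subst h
      rw [Pi.single_eq_same]
      by_cases h1 : co U g = 0
      · split_ifs <;> simp [h1]
      · have h2 : wt ω U = n := (weight_ind ω U).symm.trans (hg h1)
        rw [h2, sub_self, if_pos rfl]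
        split_ifs <;> simp
    · rw [Pi.single_eq_of_ne' h]
      simp [h]
  | succ k ih =>
    intro a g n x hg
    rw [cr_T_single ω E _ hg, cr_pre, mul_sum, map_sum]
    have h1 : ∀ l, co U (g * (E a l * cr_pre E w k (max x 0 + w a l) l b)) =
        if max x 0 < n - wt ω U then
          co U ((cr_T ω E (wt ω U + 1) ^ k) (Pi.single l (g * E a l)) b) else 0 := fun l => by
      rw [← mul_assoc, ih l _ _ _ (hg.mul (hw a l))]
      exact if_congr (by omega) rfl rfl
    simp only [h1]
    by_cases h : max x 0 < n - wt ω U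
    · simp only [if_pos h]
      rw [if_pos (by omega), if_pos (by omega), map_sum]
    · simp only [if_neg h, sum_const_zero]
      split_ifs
      · omega
      · simp
      · rfl

theorem cr_L3 (U : Finset κ) (k : ℕ) (a b : Q) (g : MvPolynomial κ R) :
    co U (cr_t ω (wt ω U) g * cr_pre E w k (-1) a b) =
      co U ((cr_T ω E (wt ω U + 1) ^ k) (Pi.single a (cr_t ω (wt ω U) g)) b) := by
  induction g using MvPolynomial.induction_on' with
  | monomial d r =>
    have h1 := isWeightedHomogeneous_monomial ω d r rfl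
    rw [cr_t_hom ω _ h1]
    split_ifs with h
    · rw [cr_L2 ω hw U k b a _ _ _ h1, if_pos (by omega)]
    · simp
  | add p q hp hq => simp only [map_add, add_mul, hp, hq, Pi.single_add, Pi.add_apply]

theorem cr_total (U : Finset κ) {f : MvPolynomial κ R} (hf : IsWeightedHomogeneous ω f (wt ω U))
    (k : ℕ) (a b : Q) : co U (f * (E ^ k) a b) = ∑ i ∈ range (k + 1), ∑ q,
      co U ((cr_T ω E (wt ω U + 1) ^ i) (Pi.single a
        (cr_t ω (wt ω U) ((cr_T ω E (wt ω U) ^ (k - i)) (Pi.single q f) b))) q) := by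
  have h0 : cr_up E w k (-1) a b = 0 := by cases k <;> simp [cr_up]
  rw [cr_split E w k b (-1) a, h0, zero_add, mul_sum, map_sum]
  refine sum_congr rfl fun i _ => ?_
  rw [mul_sum, map_sum]
  refine sum_congr rfl fun q _ => ?_
  rw [← cr_L3 ω hw, cr_L1 ω hw _ _ _ _ _ _ hf, sub_self]
  congr 1
  ring

end

section
variable (ω : κ → ℤ) (U : Finset κ) {Q : Type} [Fintype Q] [DecidableEq Q]

/-- the available values of a vector of polynomials -/
def cr_vals (G : Q → MvPolynomial κ R) : Set R :=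
  (fun z : Q × Finset κ => co z.2 (G z.1)) ''
    ((univ ×ˢ (U.powerset.filter fun S => wt ω U ≤ wt ω S) : Finset (Q × Finset κ)) : Set _)

omit [DecidableEq κ] [DecidableEq Q] in
theorem cr_mem (G : Q → MvPolynomial κ R) (q : Q) {S : Finset κ} (h1 : S ⊆ U)
    (h2 : wt ω U ≤ wt ω S) : co S (G q) ∈ cr_vals ω U G :=
  ⟨(q, S), by simp [h1, h2], rfl⟩

omit [DecidableEq κ] [DecidableEq Q] in
theorem cr_reach {A : Set R} {c g : ℕ}
    (hG : (U.powerset.filter fun S => wt ω U ≤ wt ω S).card ≤ g) (G : Q → MvPolynomial κ R)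
    (h : ∀ q S, S ⊆ U → wt ω U ≤ wt ω S → Reach At A c {co S (G q)}) :
    Reach At A (Fintype.card Q * g * c) (cr_vals ω U G) := by
  refine (Reach.image (c := c) _ fun z hz => ?_).le ?_
  · simp only [mem_product, mem_filter, mem_powerset] at hz
    exact h _ _ hz.2.1 hz.2.2
  · rw [card_product, card_univ]
    gcongr

omit [DecidableEq Q] in
theorem cr_chain (h0 : (0 : R) ∈ At) (E : Matrix Q Q (MvPolynomial κ R))
    (hE : ∀ a b, E a b ∈ Lt κ At) {g : ℕ}
    (hG : (U.powerset.filter fun S => wt ω U ≤ wt ω S).card ≤ g) {m : ℤ} (hm : wt ω U ≤ m)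
    (G : Q → MvPolynomial κ R) (k : ℕ) :
    Reach At (cr_vals ω U G) (k * (Fintype.card Q * g * (Fintype.card Q * 3 + 1)))
      (cr_vals ω U ((cr_T ω E m ^ k) G)) := by
  refine Reach.chain (fun j => cr_vals ω U ((cr_T ω E m ^ j) G)) k fun j _ => ?_
  rw [pow_succ', AddMonoid.End.coe_mul, Function.comp_apply]
  generalize (cr_T ω E m ^ j) G = G'
  refine cr_reach ω U hG _ fun q S h1 h2 => ?_
  rw [cr_T_apply, map_sum]
  refine Reach.sum (c := 2) h0 univ fun a _ => ?_
  have h3 : ∀ T ⊆ U, Reach At (cr_vals ω U G') 1 {co T (cr_t ω m (G' a))} := fun T hT => by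
    refine Reach.of_or h0 ?_
    change co T (cr_tau ω m _) ∈ _ ∨ co T (cr_tau ω m _) = 0
    rw [cr_co_tau]
    split_ifs with h4
    · exact Or.inl (cr_mem ω U G' a hT (hm.trans h4))
    · exact Or.inr rfl
  rcases hE a q with ⟨v, hv⟩ | ⟨r, hr, hv⟩
  · rw [hv, co_mul_X]
    split_ifs
    · exact (h3 _ ((erase_subset _ _).trans h1)).le (by omega)
    · exact (Reach.atom h0).le (by omega)
  · rw [hv, mul_comm, co_C_mul, mul_comm]
    exact (h3 S h1).mul hr

end

/-- one power of a matrix of letters, starting from a homogeneous `f` of the weight of `U` -/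
theorem rot (hZ : ∀ z : ℤ, (z : R) ∈ At) {Q : Type} [Fintype Q] [DecidableEq Q]
    (E : Matrix Q Q (MvPolynomial κ R)) (hE : ∀ a b, E a b ∈ Lt κ At) (ω : κ → ℤ) (U : Finset κ)
    {G : ℕ} (hG : (U.powerset.filter fun S => wt ω U ≤ wt ω S).card ≤ G)
    {f : MvPolynomial κ R} (hf : IsWeightedHomogeneous ω f (wt ω U)) (k : ℕ) (a b : Q) :
    Reach At ((fun S => co S f) '' (U.powerset.filter fun S => wt ω U ≤ wt ω S))
      (10 * (k + 1) ^ 2 * (Fintype.card Q + 1) ^ 3 * (G + 1)) {co U (f * (E ^ k) a b)} := by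
  have h0 : (0 : R) ∈ At := by simpa using hZ 0
  have hw : ∀ a b, ∃ n : ℤ, IsWeightedHomogeneous ω (E a b) n := fun a b => by
    rcases hE a b with ⟨v, hv⟩ | ⟨r, _, hv⟩
    · exact ⟨_, hv ▸ isWeightedHomogeneous_X R ω v⟩
    · exact ⟨_, hv ▸ isWeightedHomogeneous_C ω r⟩
  choose w hw using hw
  rw [cr_total ω hw U hf]
  obtain ⟨n, hn⟩ : ∃ n, n = Fintype.card Q := ⟨_, rfl⟩
  have key : Reach At ((fun S => co S f) '' (U.powerset.filter fun S => wt ω U ≤ wt ω S))
      ((range (k + 1)).card * (((univ : Finset Q).card *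
        ((2 * (n * G) + k * (n * G * (n * 3 + 1))) + 1) + 1) + 1) + 1) {∑ i ∈ range (k + 1), ∑ q,
      co U ((cr_T ω E (wt ω U + 1) ^ i) (Pi.single a
        (cr_t ω (wt ω U) ((cr_T ω E (wt ω U) ^ (k - i)) (Pi.single q f) b))) q)} := by
    refine Reach.sum h0 _ fun i hi => Reach.sum h0 _ fun q _ => ?_
    have h1 : Reach At ((fun S => co S f) '' (U.powerset.filter fun S => wt ω U ≤ wt ω S)) _
        (cr_vals ω U (Pi.single q f : Q → MvPolynomial κ R)) :=
      cr_reach (c := 1) ω U hG _ fun l S h1 h2 => Reach.of_or h0 (by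
        by_cases h : l = q
        · subst h
          rw [Pi.single_eq_same]
          exact Or.inl ⟨S, by simp [h1, h2], rfl⟩
        · rw [Pi.single_eq_of_ne h]
          exact Or.inr (map_zero _))
    have h2 := cr_chain ω U h0 E hE hG le_rfl (Pi.single q f) (k - i)
    generalize (cr_T ω E (wt ω U) ^ (k - i)) (Pi.single q f) = G' at h2 ⊢
    have h3 : Reach At (cr_vals ω U G') _
        (cr_vals ω U (Pi.single a (cr_t ω (wt ω U) (G' b)) : Q → MvPolynomial κ R)) :=
      cr_reach (c := 1) ω U hG _ fun l S h1 h2 => Reach.of_or h0 (by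
        by_cases h : l = a
        · subst h
          rw [Pi.single_eq_same]
          refine Or.inl ?_
          change co S (cr_tau ω _ _) ∈ _
          rw [cr_co_tau, if_pos h2]
          exact cr_mem ω U G' b h1 h2
        · rw [Pi.single_eq_of_ne h]
          exact Or.inr (map_zero _))
    have h4 := cr_chain ω U h0 E hE hG (m := wt ω U + 1) (by omega)
      (Pi.single a (cr_t ω (wt ω U) (G' b))) i
    refine (((h1.trans h2).trans h3).trans h4).mono subset_rfl (le_of_eq ?_)
      (Set.singleton_subset_iff.2 (cr_mem ω U _ q subset_rfl le_rfl))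
    obtain ⟨j, rfl⟩ := Nat.exists_eq_add_of_le (Nat.lt_succ_iff.1 (mem_range.1 hi))
    rw [Nat.add_sub_cancel_left, ← hn]
    ring
  refine key.le ?_
  rw [card_range, card_univ, ← hn]
  have e1 : 2 * (n * G) + k * (n * G * (n * 3 + 1)) + 1 ≤ 3 * (k + 1) * (n + 1) ^ 2 * (G + 1) := by
    nlinarith [Nat.zero_le (k * n * G), Nat.zero_le (k * n * n), Nat.zero_le (n * n * G),
      Nat.zero_le (k * n), Nat.zero_le (k * G), Nat.zero_le (n * G), Nat.zero_le (n * n)]
  obtain ⟨P, hP⟩ : ∃ P, P = (k + 1) * (n + 1) ^ 2 * (G + 1) := ⟨_, rfl⟩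
  have e2 : 1 ≤ P := by rw [hP]; exact Nat.succ_le_of_lt (by positivity)
  calc _ ≤ (k + 1) * (n * (3 * P) + 1 + 1) + 1 := by
        gcongr
        rw [hP]
        exact e1.trans (le_of_eq (by ring))
    _ ≤ 10 * ((k + 1) * (n + 1) * P) := by
        nlinarith [Nat.zero_le (k * n * P), Nat.zero_le (n * P), Nat.mul_le_mul_left k e2]
    _ = _ := by rw [hP]; ring

theorem core (hZ : ∀ z : ℤ, (z : R) ∈ At) {U Z : Finset κ} (hZU : Z ⊆ U) {j G c : ℕ}
    {f p : MvPolynomial κ R} (hf : ∀ S, co S f ≠ 0 → Disjoint S Z ∧ S.card = j)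
    (h1 : Pr (Lt κ At) c f) (h2 : Pr (Lt κ At) c p)
    (hG : j ≤ (U \ Z).card → (Hs U Z j).card ≤ G) (hG' : 2 ^ (U \ Z).card ≤ G) :
    Pr At (30 * (c + 2) ^ 6 * G) (co U (f * p)) := by
  have h0 : (0 : R) ∈ At := by simpa using hZ 0
  have h01 : (1 : R) ∈ At := by simpa using hZ 1
  have hG1 : 1 ≤ G := le_trans Nat.one_le_two_pow hG'
  have hsub : ∀ T ⊆ U, co T f ≠ 0 → T ⊆ U \ Z := fun T hT h => subset_sdiff.2 ⟨hT, (hf T h).1⟩
  by_cases hj : j ≤ (U \ Z).card
  swap
  · rw [co_mul, sum_eq_zero]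
    · exact (Pr.atom h0).le (Nat.succ_le_of_lt (by positivity))
    · intro T hT
      by_contra h
      have h3 := left_ne_zero_of_mul h
      exact hj ((hf T h3).2 ▸ card_le_card (hsub T (mem_powerset.1 hT) h3))
  have hU : wt (om U Z j) U = j * Z.card := by
    rw [wt, ← sum_sdiff hZU, sum_congr rfl (f := om U Z j) (g := fun _ => (Z.card : ℤ))
      (fun v hv => if_neg (mem_sdiff.1 hv).2), sum_congr rfl (f := om U Z j)
      (g := fun _ => (j : ℤ) - (U \ Z).card) (fun v hv => if_pos hv)]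
    simp only [sum_const, nsmul_eq_mul]
    ring
  obtain ⟨f', hf'⟩ : ∃ f' : MvPolynomial κ R,
    f' = ∑ T ∈ U.powerset, monomial (ind T) (co T f) := ⟨_, rfl⟩
  have h3 : ∀ S ⊆ U, co S f' = co S f := fun S hS => by
    rw [hf', map_sum, sum_eq_single S]
    · rw [co_apply, coeff_monomial, if_pos rfl]
    · intro T _ h
      rw [co_apply, coeff_monomial, if_neg fun h1 => h (ind_inj h1)]
    · intro h
      exact absurd (mem_powerset.2 hS) h
  have h4 : IsWeightedHomogeneous (om U Z j) f' (wt (om U Z j) U) := by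
    rw [hf']
    refine IsWeightedHomogeneous.sum _ _ _ fun T _ => ?_
    by_cases h : co T f = 0
    · rw [h, map_zero]
      exact isWeightedHomogeneous_zero _ _ _
    · refine isWeightedHomogeneous_monomial _ _ _ ?_
      rw [weight_ind, hU, sum_congr rfl (f := om U Z j) (g := fun _ => (Z.card : ℤ))
        (fun v hv => if_neg (disjoint_left.1 (hf T h).1 hv)), sum_const, (hf T h).2, nsmul_eq_mul]
  have h5 : (U.powerset.filter fun S => wt (om U Z j) U ≤ wt (om U Z j) S).card ≤ G := by
    rw [hU]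
    exact hG hj
  have h6 : co U (f * p) = co U (f' * p) := by
    rw [co_mul, co_mul]
    exact sum_congr rfl fun T hT => by rw [h3 T (mem_powerset.1 hT)]
  obtain ⟨m, E, l, hm, hE, rfl⟩ := exists_matrix (Lt_int hZ) h2
  have h7 := (down h0 h01 (U \ Z) h1).trans (Reach.image (c := 1) (f := fun S => co S f')
    (U.powerset.filter fun S => wt (om U Z j) U ≤ wt (om U Z j) S) fun S hS => Reach.of_or h0 (by
      have h8 := mem_powerset.1 (mem_filter.1 hS).1
      rw [h3 S h8]
      by_cases h : co S f = 0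
      · exact Or.inr h
      · exact Or.inl ⟨S, mem_coe.2 (mem_powerset.2 (hsub S h8 h)), rfl⟩))
  rw [h6, mul_sum, map_sum]
  refine (h7.trans (Reach.sum (c := 10 * (c + 2) ^ 2 * (c + 2) ^ 3 * (G + G)) h0 _
    fun k hk => (rot hZ E hE _ U h5 h4 k 0 l).le ?_)).le ?_
  · have := mem_range.1 hk
    rw [Fintype.card_fin]
    have e1 : k + 1 ≤ c + 2 := by omega
    have e2 : m + 1 + 1 ≤ c + 2 := by omega
    exact Nat.mul_le_mul (Nat.mul_le_mul (Nat.mul_le_mul_left _ (Nat.pow_le_pow_left e1 _))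
      (Nat.pow_le_pow_left e2 _)) (by omega)
  · rw [card_range]
    have e1 : (c + 2) * 3 ≤ 10 * (c + 2) ^ 6 :=
      calc (c + 2) * 3 ≤ (c + 2) ^ 6 * 10 := by
            gcongr
            · exact Nat.le_self_pow (by omega) _
            · omega
        _ = _ := mul_comm _ _
    calc _ ≤ c * G + G * 1 + ((c + 2) * (10 * (c + 2) ^ 2 * (c + 2) ^ 3 * (G + G) + G) + G) := by
          gcongr
          omega
      _ = 20 * (c + 2) ^ 6 * G + (2 * c + 4) * G := by ring
      _ ≤ 20 * (c + 2) ^ 6 * G + 10 * (c + 2) ^ 6 * G := by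
          gcongr
          omega
      _ = _ := by ring

end Pool.Agent.Lib.MP_8b1d3b_lc.Hc
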