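import Pool.Agent.Lib.MP_8b1d3b_lc.Gr.Alg
import Pool.Agent.Lib.MP_8b1d3b_lc.Gr.Cost

/-! Definitions for the programs below `2 ^ n` for cycle covers. -/

set_option autoImplicit false

namespace Pool.Agent.Lib.MP_8b1d3b_lc.Hc

open Finset MvPolynomial Gr

/-- atoms of a polynomial ring: variables and atoms of the coefficient ring -/
def Lt (κ : Type) {R : Type*} [CommRing R] (At : Set R) : Set (MvPolynomial κ R) :=
  {z | (∃ v, z = X v) ∨ ∃ a ∈ At, z = C a}

/-- `x` has a skew program with at most `c` steps -/
def Pr {R : Type*} [CommRing R] (At : Set R) (c : ℕ) (x : R) : Prop := Reach At ∅ c {x}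

/-- the part of weighted degree below `e` -/
noncomputable def low {κ : Type} {R : Type*} [CommRing R] (w : κ → ℕ) (e : ℕ) :
    MvPolynomial κ R →ₗ[R] MvPolynomial κ R := ∑ d ∈ range e, weightedHomogeneousComponent w d

/-- polynomials all of whose monomials have weighted degree at least `e` -/
def Hi {κ : Type} (R : Type*) [CommRing R] (w : κ → ℕ) (e : ℕ) : Ideal (MvPolynomial κ R) where
  carrier := {p | ∀ d, coeff d p ≠ 0 → e ≤ Finsupp.weight w d}
  add_mem' := fun {a b} ha hb d hd => by
    by_cases h : coeff d a = 0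
    · exact hb d fun h1 => hd (by rw [coeff_add, h, h1, add_zero])
    · exact ha d h
  zero_mem' := fun d hd => absurd (coeff_zero d) hd
  smul_mem' := fun c p hp d hd => by
    classical
    rw [smul_eq_mul, coeff_mul] at hd
    obtain ⟨x, hx, h1⟩ := exists_ne_zero_of_sum_ne_zero hd
    rw [← mem_antidiagonal.1 hx, map_add]
    exact (hp _ (right_ne_zero_of_mul h1)).trans (Nat.le_add_left _ _)

section
variable {κ : Type} [DecidableEq κ]

/-- weights for which `U` and the sets of size `j` outside `Z` have weight `j * Z.card` -/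
def om (U Z : Finset κ) (j : ℕ) (v : κ) : ℤ :=
  if v ∈ Z then (j : ℤ) - (U \ Z).card else Z.card

/-- the half space of states -/
def Hs (U Z : Finset κ) (j : ℕ) : Finset (Finset κ) :=
  U.powerset.filter fun S => (j : ℤ) * Z.card ≤ wt (om U Z j) S

end

/-- the number of letters of a row content -/
def dg : Option (ℕ × ℕ × ℕ) → ℕ
  | none => 0
  | some q => q.1 + 1

/-- row contents -/
def Ro (n : ℕ) : Finset (Option (ℕ × ℕ × ℕ)) :=
  insertNone ((range (n + 1) ×ˢ range (n + 1) ×ˢ range (n + 1)).filter
    fun q => q.2.1 + q.2.2 ≤ q.1)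

/-- content vectors with at most `n` letters and at most `z` active rows -/
def Opt (n z : ℕ) : Finset (Fin n → Option (ℕ × ℕ × ℕ)) :=
  (Fintype.piFinset fun _ => Ro n).filter fun o =>
    ∑ u, dg (o u) ≤ n ∧ (univ.filter fun u => o u ≠ none).card ≤ z

section
variable {n : ℕ} {R : Type*} [CommRing R]

/-- the sum over the permutations all of whose cycles meet `J` -/
noncomputable def cyc (J : Finset (Fin n)) (A : Fin n → Fin n → R) : R :=
  ∑ σ : Equiv.Perm (Fin n) with (∀ i, ∃ j ∈ J, σ.SameCycle i j), ∏ i, A i (σ i)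

/-- zero or one on `W`, a variable outside -/
noncomputable def yv (R : Type*) [CommRing R] (W T : Finset (Fin n)) (v : Fin n) :
    MvPolynomial (Fin n) R := if v ∈ W then (if v ∈ T then 1 else 0) else X v

/-- the Laplacian with the columns in `F` replaced by unit vectors -/
noncomputable def Lm (J F : Finset (Fin n)) (A : Fin n → Fin n → R)
    (y : Fin n → MvPolynomial (Fin n) R) : Matrix (Fin n) (Fin n) (MvPolynomial (Fin n) R) :=
  Matrix.of fun u v => if v ∈ F then (if u = v then 1 else 0) else
    (if u = v then ∑ w, C (A u w) * y w else 0) - (if v ∈ J then 0 else C (A u v) * y v)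

/-- the weight of the inner variables of `W` -/
def wi (W : Finset (Fin n)) (p : Fin n × Fin n) : ℕ :=
  if p.1 ∈ W ∧ p.2 ∈ W ∧ p.1 ≠ p.2 then 1 else 0

end

end Pool.Agent.Lib.MP_8b1d3b_lc.Hc
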