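import Pool.Agent.Lib.MP_8b1d3b_lc.Hc.Tr

/-! A division-free skew program for the determinant. -/

set_option autoImplicit false

namespace Pool.Agent.Lib.MP_8b1d3b_lc.Hc

open Finset MvPolynomial Gr

variable {R : Type*} [CommRing R] {At : Set R}

/-- column `h` of the truncated inverse of `1 + N` -/
def dt_g {n : ℕ} (N : Matrix (Fin n) (Fin n) R) (h : Fin n) : ℕ → Fin n → R
  | 0 => fun v => if v = h then 1 else 0
  | k + 1 => fun v => (if v = h then 1 else 0) + (∑ l, dt_g N h k l * N v l) * (-1)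

theorem dt_unit (hZ : ∀ z : ℤ, (z : R) ∈ At) (p : Prop) [Decidable p] :
    (if p then (1 : R) else 0) ∈ At := by
  split_ifs
  · simpa using hZ 1
  · simpa using hZ 0

theorem dt_row (hZ : ∀ z : ℤ, (z : R) ∈ At) {n c : ℕ} (g r : Fin n → R)
    (hr : ∀ l, Pr At c (r l)) :
    Reach At (g '' ((univ : Finset (Fin n)) : Set (Fin n))) (n * (c + 1) + 1)
      {∑ l, g l * r l} := by
  have h0 : (0 : R) ∈ At := by simpa using hZ 0
  have h1 := Reach.sum (A := g '' ((univ : Finset (Fin n)) : Set (Fin n))) (c := c) h0 univ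
    (f := fun l => g l * r l) fun l _ => by
      have h2 := Pr.step h0 (Reach.of_mem (At := At)
        (A := g '' ((univ : Finset (Fin n)) : Set (Fin n))) (x := g l) ⟨l, by simp, rfl⟩) (hr l)
      rwa [zero_add] at h2
  rwa [card_univ, Fintype.card_fin] at h1

theorem dt_reach (hZ : ∀ z : ℤ, (z : R) ∈ At) {n c : ℕ} (N : Matrix (Fin n) (Fin n) R)
    (hN : ∀ i j, Pr At c (N i j)) (h : Fin n) (k : ℕ) :
    Reach At ∅ (n + k * (n * (n * (c + 1) + 4)))
      (dt_g N h k '' ((univ : Finset (Fin n)) : Set (Fin n))) := by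
  have hm : (-1 : R) ∈ At := by simpa using hZ (-1)
  have h1 := Reach.image (At := At) (A := ∅) (c := 1) univ (f := dt_g N h 0)
    fun v _ => Reach.atom (dt_unit hZ _)
  rw [card_univ, Fintype.card_fin, mul_one] at h1
  refine h1.trans (Reach.chain
    (fun j => dt_g N h j '' ((univ : Finset (Fin n)) : Set (Fin n))) k fun j _ => ?_)
  have h2 := Reach.image (At := At) (A := dt_g N h j '' ((univ : Finset (Fin n)) : Set (Fin n)))
    (c := n * (c + 1) + 4) univ (f := dt_g N h (j + 1)) fun v _ =>
      ((Reach.atom (dt_unit hZ (v = h))).add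
        ((dt_row hZ (dt_g N h j) (N v) (hN v)).mul hm)).le (by omega)
  rwa [card_univ, Fintype.card_fin] at h2

theorem dt_dvd {n : ℕ} (N : Matrix (Fin n) (Fin n) R) (h : Fin n) {t : R}
    (hN : ∀ i j, t ∣ N i j) (k : ℕ) (v : Fin n) :
    t ^ (k + 1) ∣ dt_g N h k v - dt_g N h (k + 1) v := by
  induction k generalizing v with
  | zero =>
    have h1 : dt_g N h 0 v - dt_g N h (0 + 1) v = ∑ l, dt_g N h 0 l * N v l := by
      simp only [dt_g]
      ring
    rw [h1, zero_add, pow_one]
    exact dvd_sum fun l _ => (hN v l).mul_left _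
  | succ k ih =>
    have h1 : dt_g N h (k + 1) v - dt_g N h (k + 1 + 1) v =
        -∑ l, (dt_g N h k l - dt_g N h (k + 1) l) * N v l := by
      rw [show dt_g N h (k + 1 + 1) v = (if v = h then 1 else 0) +
        (∑ l, dt_g N h (k + 1) l * N v l) * (-1) from rfl,
        show dt_g N h (k + 1) v = (if v = h then 1 else 0) +
        (∑ l, dt_g N h k l * N v l) * (-1) from rfl]
      simp only [sub_mul, sum_sub_distrib]
      ring
    rw [h1, pow_succ]
    exact (dvd_sum fun l _ => mul_dvd_mul (ih l) (hN v l)).neg_right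

theorem dt_update {n : ℕ} (A B : Matrix (Fin n) (Fin n) R) (g r : Fin n → R) (h : Fin n)
    (hg : ∀ i, ∑ l, A i l * g l = if i = h then 1 else 0)
    (hB : ∀ i j, B i j = A i j + if i = h then r j else 0) :
    B.det = A.det * (1 + ∑ l, g l * r l) := by
  have h1 : B = A * (1 + Matrix.replicateCol Unit g * Matrix.replicateRow Unit r) := by
    ext i j
    rw [Matrix.mul_add, Matrix.mul_one, ← Matrix.mul_assoc, Matrix.add_apply, hB]
    congr 1
    simp [Matrix.mul_apply, hg]
  rw [h1, Matrix.det_mul, Matrix.det_one_add_replicateCol_mul_replicateRow, dotProduct]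
  simp only [mul_comm]

theorem dt_step {n : ℕ} (N N' : Matrix (Fin n) (Fin n) R) (r : Fin n → R) (h : Fin n) {t : R}
    (hN : ∀ i j, t ∣ N i j) (hN' : ∀ i j, N' i j = N i j + if i = h then r j else 0) (k : ℕ) :
    t ^ (k + 1) ∣ (1 + N').det - (1 + N).det * (1 + ∑ l, dt_g N h k l * r l) := by
  rw [← Ideal.mem_span_singleton, ← Ideal.Quotient.eq]
  generalize hφ : Ideal.Quotient.mk (Ideal.span {t ^ (k + 1)}) = φ
  rw [map_mul, RingHom.map_det, RingHom.map_det, map_add φ, map_one, map_sum]
  simp only [map_mul]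
  refine dt_update _ _ _ _ h (fun i => ?_) fun i j => ?_
  · have h1 : φ (dt_g N h k i) = φ (dt_g N h (k + 1) i) := by
      rw [← hφ, Ideal.Quotient.eq, Ideal.mem_span_singleton]
      exact dt_dvd N h hN k i
    have h2 : ∑ l, (1 + N) i l * dt_g N h k l =
        dt_g N h k i + ∑ l, dt_g N h k l * N i l := by
      simp only [Matrix.add_apply, add_mul, sum_add_distrib, Matrix.one_apply, ite_mul, one_mul,
        zero_mul, sum_ite_eq, mem_univ, if_true, mul_comm]
    have h3 : ∑ l, φ.mapMatrix (1 + N) i l * φ (dt_g N h k l) =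
        φ (∑ l, (1 + N) i l * dt_g N h k l) := by
      rw [map_sum]
      simp only [RingHom.mapMatrix_apply, Matrix.map_apply, map_mul]
    rw [h3, h2, map_add φ, h1, ← map_add φ]
    have h4 : dt_g N h (k + 1) i + ∑ l, dt_g N h k l * N i l = if i = h then 1 else 0 := by
      simp only [dt_g]
      ring
    rw [h4]
    split_ifs
    · exact map_one φ
    · exact map_zero φ
  · simp only [RingHom.mapMatrix_apply, Matrix.map_apply, Matrix.add_apply, hN']
    split_ifs
    · rw [← map_add φ, add_assoc]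
    · rw [add_zero, add_zero]

theorem dt_rows (hZ : ∀ z : ℤ, (z : R) ∈ At) {n c : ℕ} (M : Matrix (Fin n) (Fin n) R)
    (hM : ∀ i j, Pr At (c + 1) (M i j)) {t : R} (ht : ∀ i j, t ∣ M i j) (k : ℕ)
    (T : Finset (Fin n)) :
    ∃ p : R, Pr At (T.card * (n + k * (n * (n * (c + 2) + 4)) + (n * (c + 2) + 3)) + 1) p ∧
      t ^ (k + 1) ∣ (1 + Matrix.of fun i j => if i ∈ T then M i j else 0).det - p := by
  have h0 : (0 : R) ∈ At := by simpa using hZ 0
  have h1 : (1 : R) ∈ At := by simpa using hZ 1
  induction T using Finset.induction_on with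
  | empty =>
    refine ⟨1, (Pr.atom h1).le (by omega), ?_⟩
    have h2 : (Matrix.of fun i j => if i ∈ (∅ : Finset (Fin n)) then M i j else 0) = 0 := by
      ext i j
      simp
    rw [h2, add_zero, Matrix.det_one, sub_self]
    exact dvd_zero _
  | insert h T hT ih =>
    obtain ⟨p, hp, hd⟩ := ih
    generalize hN : (Matrix.of fun i j => if i ∈ T then M i j else 0) = N at hd
    have hNa : ∀ i j, N i j = if i ∈ T then M i j else 0 := fun i j => by rw [← hN]; rfl
    have hN1 : ∀ i j, Pr At (c + 1) (N i j) := fun i j => by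
      rw [hNa]
      split_ifs
      · exact hM i j
      · exact (Pr.atom h0).le (by omega)
    have hN2 : ∀ i j, t ∣ N i j := fun i j => by
      rw [hNa]
      split_ifs
      · exact ht i j
      · exact dvd_zero _
    have hf : Pr At (n + k * (n * (n * (c + 2) + 4)) + (n * (c + 2) + 3))
        (1 + ∑ l, dt_g N h k l * M h l) :=
      (dt_reach hZ N hN1 h k).trans
        (((Reach.atom h1).add (dt_row hZ (dt_g N h k) (M h) (hM h))).le (le_of_eq (by ring)))
    refine ⟨p * (1 + ∑ l, dt_g N h k l * M h l), (Pr.mul h0 hp hf).le (le_of_eq ?_), ?_⟩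
    · rw [card_insert_of_notMem hT]
      ring
    · have h2 := dt_step N (Matrix.of fun i j => if i ∈ insert h T then M i j else 0) (M h) h hN2
        (fun i j => by
          rw [hNa, Matrix.of_apply]
          by_cases hi : i = h
          · subst hi
            simp [hT]
          · simp [hi]) k
      have h3 := h2.add (hd.mul_right (1 + ∑ l, dt_g N h k l * M h l))
      rwa [sub_mul, sub_add_sub_cancel] at h3

/-- In `R[t]` let `N T` be `t • M` on the rows in `T` and zero elsewhere, `G T = ∑ i ≤ n, (-N T)^i`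
(Horner recursion, one column at a time, `Reach.chain`). Modulo `t^(n+1)` (quotient ring)
`G T` inverts `1 + N T`, and `det (1 + N (insert h T)) = det (1 + N T) * (1 + ∑ v, t * M h v * G T v h)`
(rank one update, `Matrix.det_one_add_replicateCol_mul_replicateRow`). Take the coefficient of
`t^n` (`Matrix.coeff_det_X_add_C_card`, `Pr.coeff`). -/
theorem Pr.det (hZ : ∀ z : ℤ, (z : R) ∈ At) {n c : ℕ} (M : Matrix (Fin n) (Fin n) R)
    (h : ∀ i j, Pr At c (M i j)) : Pr At (10 * (n + 1) ^ 5 * (c + 1)) M.det := by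
  have h0 : (0 : R) ∈ At := by simpa using hZ 0
  have h1 : (1 : R) ∈ At := by simpa using hZ 1
  obtain ⟨p, hp, hd⟩ := dt_rows (Lp_int hZ) (c := c)
    ((Polynomial.X : Polynomial R) • M.map Polynomial.C)
    (fun i j => by
      rw [Matrix.smul_apply, smul_eq_mul, mul_comm]
      exact Reach.mul (Pr.pC h0 (h i j)) (Or.inl rfl))
    (t := Polynomial.X) (fun i j => Dvd.intro _ rfl) n univ
  have h2 : (1 + Matrix.of fun i j => if i ∈ (univ : Finset (Fin n)) then
      ((Polynomial.X : Polynomial R) • M.map Polynomial.C) i j else 0) =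
      (Polynomial.X : Polynomial R) • M.map Polynomial.C +
        (1 : Matrix (Fin n) (Fin n) R).map Polynomial.C := by
    rw [Matrix.map_one _ (map_zero _) (map_one _), add_comm]
    congr 1
    ext i j : 2
    simp
  have h3 := Polynomial.coeff_det_X_add_C_card M 1
  have h4 := Polynomial.X_pow_dvd_iff.1 hd n (by omega)
  rw [Fintype.card_fin] at h3
  rw [h2, Polynomial.coeff_sub, h3, sub_eq_zero] at h4
  rw [h4]
  refine (Pr.coeff h0 h1 hp n).le ?_
  rw [card_univ, Fintype.card_fin]
  have h5 : n * (n + n * (n * (n * (c + 2) + 4)) + (n * (c + 2) + 3)) + 1 ≤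
      10 * (n + 1) ^ 4 * (c + 1) :=
    Nat.le.intro (k := n ^ 4 * (9 * c + 8) + n ^ 3 * (40 * c + 36) + n ^ 2 * (59 * c + 57) +
      n * (40 * c + 37) + (10 * c + 9)) (by ring)
  calc _ ≤ 10 * (n + 1) ^ 4 * (c + 1) * (n + 1) := Nat.mul_le_mul_right _ h5
    _ = _ := by ring

end Pool.Agent.Lib.MP_8b1d3b_lc.Hc
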