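import Pool.Agent.Lib.MP_8b1d3b_lc.Hc.Tr

/-! A family of sets that separates pairs, and gluing of the classes. -/

set_option autoImplicit false

namespace Pool.Agent.Lib.MP_8b1d3b_lc.Hc

open Finset MvPolynomial Gr

theorem fm_cnt {n : ℕ} {u v : Fin n} (h : u ≠ v) :
    16 * ((powersetCard (n / 4) univ).filter fun S => u ∈ S ∧ v ∈ S).card ≤ n.choose (n / 4) := by
  have e : ((powersetCard (n / 4) univ).filter fun S => u ∈ S ∧ v ∈ S) =
      (powersetCard (n / 4) univ).filter fun S => ({u, v} : Finset (Fin n)) ⊆ S :=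
    filter_congr fun S _ => by simp [insert_subset_iff]
  rw [e]
  rcases lt_or_ge (n / 4) 2 with hm | hm
  · rw [filter_eq_empty_iff.2 fun S hS h1 => ?_]
    · simp
    · have := card_le_card h1
      rw [card_pair h, (mem_powersetCard.1 hS).2] at this
      omega
  · rw [card_filter_powersetCard_subset _ _ _ (subset_univ _) (by rwa [card_pair h]), card_pair h,
      card_univ, Fintype.card_fin]
    obtain ⟨m, e1⟩ : ∃ m, n / 4 = m + 2 := ⟨n / 4 - 2, by omega⟩
    obtain ⟨k, rfl⟩ : ∃ k, n = k + 2 := ⟨n - 2, by omega⟩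
    rw [e1, Nat.add_sub_cancel, Nat.add_sub_cancel]
    have a1 := Nat.add_one_mul_choose_eq k m
    have a2 := Nat.add_one_mul_choose_eq (k + 1) (m + 1)
    have b1 : 4 * (m + 1) ≤ k + 1 := by omega
    have b2 : 4 * (m + 2) ≤ k + 2 := by omega
    have c1 : 4 * k.choose m ≤ (k + 1).choose (m + 1) :=
      Nat.le_of_mul_le_mul_right (c := m + 1) (by rw [← a1]; nlinarith [Nat.zero_le (k.choose m)])
        (by omega)
    have c2 : 4 * (k + 1).choose (m + 1) ≤ (k + 1 + 1).choose (m + 1 + 1) :=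
      Nat.le_of_mul_le_mul_right (c := m + 1 + 1)
        (by rw [← a2]; nlinarith [Nat.zero_le ((k + 1).choose (m + 1))]) (by omega)
    calc 16 * k.choose m ≤ 4 * (k + 1).choose (m + 1) := by omega
      _ ≤ _ := c2

theorem fm_step {n : ℕ} (Ψ : Fin n × Fin n → ℕ) : ∃ S : Finset (Fin n), S.card = n / 4 ∧
    16 * ∑ p ∈ offDiag univ, Ψ p * 2 ^ (if p.1 ∈ S ∧ p.2 ∈ S then 1 else 0) ≤
      17 * ∑ p ∈ offDiag univ, Ψ p := by
  obtain ⟨S, hS, h⟩ := exists_le_of_sum_le (s := powersetCard (n / 4) (univ : Finset (Fin n)))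
    (f := fun S => 16 * ∑ p ∈ offDiag univ, Ψ p * 2 ^ (if p.1 ∈ S ∧ p.2 ∈ S then 1 else 0))
    (g := fun _ => 17 * ∑ p ∈ offDiag univ, Ψ p)
    (powersetCard_nonempty.2 (by simpa using Nat.div_le_self n 4)) (by
      simp only [mul_sum]
      rw [sum_comm, sum_comm (s := powersetCard _ _)]
      refine sum_le_sum fun p hp => ?_
      have e : ∀ S : Finset (Fin n), 16 * (Ψ p * 2 ^ (if p.1 ∈ S ∧ p.2 ∈ S then 1 else 0)) =
          16 * Ψ p + if p.1 ∈ S ∧ p.2 ∈ S then 16 * Ψ p else 0 := fun S => by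
        split_ifs <;> ring
      have := fm_cnt (mem_offDiag.1 hp).2.2
      simp only [e, sum_add_distrib, ← sum_filter, sum_const, card_powersetCard, card_univ,
        Fintype.card_fin, smul_eq_mul]
      nlinarith [Nat.mul_le_mul_right (Ψ p) this])
  exact ⟨S, (mem_powersetCard.1 hS).2, h⟩

theorem fm_pot (n r : ℕ) : ∃ W : Fin r → Finset (Fin n), (∀ k, (W k).card = n / 4) ∧
    16 ^ r * ∑ p ∈ offDiag (univ : Finset (Fin n)),
      2 ^ (univ.filter fun k => p.1 ∈ W k ∧ p.2 ∈ W k).card ≤ 17 ^ r * n ^ 2 := by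
  induction r with
  | zero =>
    refine ⟨Fin.elim0, fun k => k.elim0, ?_⟩
    simp [offDiag_card, sq]
  | succ r ih =>
    obtain ⟨W, h1, h2⟩ := ih
    obtain ⟨S, h3, h4⟩ := fm_step fun p : Fin n × Fin n =>
      2 ^ (univ.filter fun k => p.1 ∈ W k ∧ p.2 ∈ W k).card
    refine ⟨Fin.cons S W, Fin.cases h3 h1, ?_⟩
    have e : ∀ p : Fin n × Fin n, (univ.filter fun k : Fin (r + 1) =>
        p.1 ∈ (Fin.cons S W : Fin (r + 1) → _) k ∧ p.2 ∈ (Fin.cons S W : Fin (r + 1) → _) k).card =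
        (univ.filter fun k => p.1 ∈ W k ∧ p.2 ∈ W k).card +
          if p.1 ∈ S ∧ p.2 ∈ S then 1 else 0 := fun p => by
      rw [card_filter, card_filter, Fin.sum_univ_succ, add_comm]
      rfl
    simp only [e, pow_add, pow_one]
    calc _ = 16 ^ r * (16 * _) := mul_assoc _ _ _
      _ ≤ 16 ^ r * (17 * _) := Nat.mul_le_mul_left _ h4
      _ = 17 * (16 ^ r * _) := mul_left_comm _ _ _
      _ ≤ 17 * (17 ^ r * n ^ 2) := Nat.mul_le_mul_left _ h2
      _ = _ := by ring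

/-- potential `∑ 2 ^ count` over ordered pairs of distinct points; averaging over all sets of size
`n / 4` gives a factor `17 / 16` per set, and `(17 / 16) ^ 11 < 2` -/
theorem fam_pair (n L : ℕ) (hL : n ≤ 2 ^ L) : ∃ W : Fin (2200 * L) → Finset (Fin n),
    (∀ k, (W k).card = n / 4) ∧
      ∀ u v, u ≠ v → (univ.filter fun k => u ∈ W k ∧ v ∈ W k).card ≤ 202 * L := by
  obtain ⟨W, h1, h2⟩ := fm_pot n (2200 * L)
  refine ⟨W, h1, fun u v h => ?_⟩
  have a := single_le_sum (f := fun p : Fin n × Fin n =>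
    2 ^ (univ.filter fun k => p.1 ∈ W k ∧ p.2 ∈ W k).card) (fun _ _ => Nat.zero_le _)
    (mem_offDiag.2 ⟨mem_univ u, mem_univ v, h⟩ : (u, v) ∈ offDiag univ)
  have b : 17 ^ (2200 * L) ≤ 16 ^ (2200 * L) * 2 ^ (200 * L) := by
    rw [show 2200 * L = 11 * (200 * L) by ring, pow_mul 17 11, pow_mul 16 11, ← mul_pow]
    exact Nat.pow_le_pow_left (by norm_num) _
  have c : n ^ 2 ≤ 2 ^ (2 * L) := by
    rw [mul_comm, pow_mul]
    exact Nat.pow_le_pow_left hL _
  have d := ((Nat.mul_le_mul_left _ a).trans h2).trans (Nat.mul_le_mul b c)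
  rw [mul_assoc, ← pow_add] at d
  have := (Nat.pow_le_pow_iff_right (by norm_num)).1
    (Nat.le_of_mul_le_mul_left d (by positivity))
  simp only at this
  omega

theorem fam (n L : ℕ) (hL : n ≤ 2 ^ L) (hL0 : 0 < L) : ∃ W : Fin (2200 * L) → Finset (Fin n),
    (∀ k, (W k).card = n / 4) ∧
      ∀ σ : Equiv.Perm (Fin n), ∃ k, 1000 * ∑ u, wi (W k) (u, σ u) ≤ 92 * n := by
  obtain ⟨W, h1, h2⟩ := fam_pair n L hL
  refine ⟨W, h1, fun σ => ?_⟩
  obtain ⟨k, -, hk⟩ := exists_le_of_sum_le (s := (univ : Finset (Fin (2200 * L))))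
    (f := fun k => 1000 * ∑ u, wi (W k) (u, σ u)) (g := fun _ => 92 * n)
    ⟨⟨0, by omega⟩, mem_univ _⟩ (by
      have a : ∑ u, ∑ k, wi (W k) (u, σ u) ≤ ∑ _u : Fin n, 202 * L := sum_le_sum fun u _ => by
        by_cases e : u = σ u
        · simp [wi, ← e]
        · refine le_trans (le_of_eq ?_) (h2 u (σ u) e)
          rw [card_filter]
          simp only [wi, ne_eq, e, not_false_eq_true, and_true]
      rw [← mul_sum, sum_comm]
      simp only [sum_const, card_univ, Fintype.card_fin, smul_eq_mul] at a ⊢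
      nlinarith [Nat.zero_le (n * L)])
  exact ⟨k, hk⟩

variable {K : Type*} [CommRing K] {At : Set K}

/-- `D 0 = 0`, `D (k + 1) = low y + (D k - low (D k))` -/
theorem glue (hZ : ∀ z : ℤ, (z : K) ∈ At) {σ : Type} {r e c : ℕ} (w : Fin r → σ → ℕ)
    (p : MvPolynomial σ K) (hp : ∀ d, coeff d p ≠ 0 → ∃ k, Finsupp.weight (w k) d < e)
    (h : ∀ k, ∃ y, low (w k) e y = low (w k) e p ∧ Pr (Lt σ At) c y) :
    Pr (Lt σ At) ((c + 3) * (3 * e + 5) ^ r) p := by
  classical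
  have h0 : (0 : K) ∈ At := by simpa using hZ 0
  have h1 : (1 : K) ∈ At := by simpa using hZ 1
  have key : ∀ k ≤ r, ∃ D : MvPolynomial σ K, Pr (Lt σ At) ((c + 3) * (3 * e + 5) ^ k) D ∧
      ∀ d, coeff d D = if ∃ j : Fin r, j.val < k ∧ Finsupp.weight (w j) d < e then coeff d p
        else 0 := by
    intro k hk
    induction k with
    | zero =>
      refine ⟨0, (Pr.atom ?_).le (by simp), fun d => by simp⟩
      simpa using Lt_int (κ := σ) hZ 0
    | succ k ih =>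
      obtain ⟨D, a1, a2⟩ := ih (by omega)
      obtain ⟨y, b1, b2⟩ := h ⟨k, hk⟩
      refine ⟨low (w ⟨k, hk⟩) e y + (D - low (w ⟨k, hk⟩) e D), ((b2.low h0 h1 _ e).add
        (a1.sub (Lt_int hZ) (a1.low h0 h1 _ e))).le ?_, fun d => ?_⟩
      · have t : c + 3 ≤ (c + 3) * (3 * e + 5) ^ k := Nat.le_mul_of_pos_right _ (by positivity)
        rw [pow_succ, ← mul_assoc]
        generalize (c + 3) * (3 * e + 5) ^ k = s at t
        nlinarith [Nat.mul_le_mul_right e t, Nat.zero_le e, Nat.zero_le (s * e)]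
      · rw [coeff_add, coeff_sub, b1, coeff_low, coeff_low, a2]
        by_cases t : Finsupp.weight (w ⟨k, hk⟩) d < e
        · rw [if_pos t, if_pos t, sub_self, add_zero, if_pos ⟨⟨k, hk⟩, k.lt_succ_self, t⟩]
        · rw [if_neg t, if_neg t, sub_zero, zero_add]
          refine if_congr ⟨fun ⟨j, c1, c2⟩ => ⟨j, by omega, c2⟩, fun ⟨j, c1, c2⟩ => ⟨j, ?_, c2⟩⟩
            rfl rfl
          refine lt_of_le_of_ne (by omega) fun c3 => t ?_
          rwa [show (⟨k, hk⟩ : Fin r) = j from Fin.ext c3.symm]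
  obtain ⟨D, a1, a2⟩ := key r le_rfl
  rwa [show p = D from MvPolynomial.ext _ _ fun d => ?_]
  rw [a2]
  split_ifs with t
  · rfl
  · exact of_not_not fun c1 => let ⟨k, c2⟩ := hp d c1; t ⟨k, k.2, c2⟩

theorem cyc_weight {n : ℕ} (J : Finset (Fin n)) (d : Fin n × Fin n →₀ ℕ)
    (hd : coeff d (cyc J fun u v => (X (u, v) : MvPolynomial (Fin n × Fin n) K)) ≠ 0) :
    ∃ σ : Equiv.Perm (Fin n), ∀ w : Fin n × Fin n → ℕ,
      Finsupp.weight w d = ∑ u, w (u, σ u) := by
  rw [cyc, coeff_sum] at hd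
  obtain ⟨σ, -, h⟩ := exists_ne_zero_of_sum_ne_zero hd
  refine ⟨σ, fun w => ?_⟩
  simp only [X, ← monomial_sum_one, coeff_monomial] at h
  rw [← of_not_not fun e => h (if_neg e), map_sum]
  simp [Finsupp.weight_single]

end Pool.Agent.Lib.MP_8b1d3b_lc.Hc
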