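import Pool.Agent.Lib.MP_8b1d3b_lc.Hc.Defs

/-! The Laplacian identity. -/

set_option autoImplicit false

namespace Pool.Agent.Lib.MP_8b1d3b_lc.Hc

open Finset MvPolynomial Gr

variable {n : ℕ} {R : Type*} [CommRing R]

/-- kernel vector if a cycle avoids `J`, nilpotent otherwise -/
theorem det_perm (J : Finset (Fin n)) (σ : Equiv.Perm (Fin n)) :
    (Matrix.of fun u v : Fin n => (if u = v then (1 : R) else 0) -
      (if v = σ u ∧ v ∉ J then 1 else 0)).det =
      if ∀ i, ∃ j ∈ J, σ.SameCycle i j then 1 else 0 := by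
  classical
  by_cases h : ∀ i, ∃ j ∈ J, σ.SameCycle i j
  · rw [if_pos h]
    have h1 : ∀ u, ∃ k : ℕ, (σ ^ k) (σ u) ∈ J := fun u => by
      obtain ⟨j, hj, h2⟩ := h (σ u)
      obtain ⟨k, _, h3⟩ := h2.exists_pow_eq'
      exact ⟨k, h3 ▸ hj⟩
    have h2 : ∀ u v, v = σ u ∧ v ∉ J → Nat.find (h1 v) < Nat.find (h1 u) := by
      rintro u v ⟨rfl, hv⟩
      have h3 := Nat.find_spec (h1 u)
      generalize Nat.find (h1 u) = k at h3 ⊢
      cases k with
      | zero => exact absurd h3 hv
      | succ k =>
        refine Nat.lt_succ_of_le (Nat.find_min' _ ?_)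
        rwa [pow_succ, Equiv.Perm.mul_apply] at h3
    rw [Matrix.BlockTriangular.det (b := fun u => -(Nat.find (h1 u) : ℤ))]
    · refine prod_eq_one fun a _ => ?_
      refine (congrArg Matrix.det ?_).trans Matrix.det_one
      ext u v
      rw [Matrix.toSquareBlock_def, Matrix.of_apply, Matrix.of_apply, Matrix.one_apply,
        if_neg (c := _ ∧ _), sub_zero]
      · simp only [Subtype.ext_iff]
      · intro h3
        have h4 := h2 _ _ h3
        have h5 := u.2
        have h6 := v.2
        omega
    · intro u v huv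
      have h3 : Nat.find (h1 u) < Nat.find (h1 v) := by
        simp only at huv
        omega
      rw [Matrix.of_apply, if_neg, if_neg, sub_zero]
      · intro h4
        have := h2 _ _ h4
        omega
      · rintro rfl
        omega
  · rw [if_neg h]
    obtain ⟨i, hi⟩ := not_forall.1 h
    refine Matrix.det_eq_zero_of_mulVec_eq_zero_of_mem_nonZeroDivisors
      (v := fun v => if σ.SameCycle i v then 1 else 0) (i := i) ?_ ?_
    · ext u
      simp only [Matrix.mulVec, dotProduct, Matrix.of_apply, sub_mul, sum_sub_distrib,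
        Pi.zero_apply]
      rw [sum_eq_single u (fun v _ hv => by rw [if_neg hv.symm, zero_mul])
          (fun h1 => absurd (mem_univ _) h1),
        sum_eq_single (σ u) (fun v _ hv => by rw [if_neg fun h1 => hv h1.1, zero_mul])
          (fun h1 => absurd (mem_univ _) h1), if_pos rfl, one_mul]
      by_cases h1 : σ.SameCycle i u
      · have h2 : σ.SameCycle i (σ u) := Equiv.Perm.sameCycle_apply_right.2 h1
        rw [if_pos h1, if_pos h2, if_pos ⟨rfl, fun h3 => hi ⟨_, h3, h2⟩⟩, one_mul, sub_self]
      · have h2 : ¬ σ.SameCycle i (σ u) := fun h2 => h1 (Equiv.Perm.sameCycle_apply_right.1 h2)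
        rw [if_neg h1, if_neg h2, mul_zero, sub_self]
    · rw [if_pos (Equiv.Perm.SameCycle.refl σ i)]
      exact one_mem _

theorem sum_yv (W : Finset (Fin n)) (φ : Fin n → Fin n) :
    ∑ T ∈ W.powerset, (-1) ^ (W \ T).card * co Wᶜ (∏ u, yv R W T (φ u)) =
      if Function.Bijective φ then 1 else 0 := by
  by_cases h : Function.Bijective φ
  · rw [if_pos h, sum_eq_single W]
    · have h1 : ∏ v, yv R W W v = monomial (ind Wᶜ) 1 := by
        rw [ind, monomial_sum_one, ← prod_mul_prod_compl W, prod_eq_one, one_mul]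
        · refine prod_congr rfl fun v hv => ?_
          rw [yv, if_neg (mem_compl.1 hv)]
          rfl
        · intro v hv
          rw [yv, if_pos hv, if_pos hv]
      rw [sdiff_self, h.prod_comp, h1, co_apply, coeff_monomial, if_pos rfl]
      simp
    · intro T hT hne
      obtain ⟨v, hv, hv'⟩ := exists_of_ssubset (lt_of_le_of_ne (mem_powerset.1 hT) hne)
      obtain ⟨u, rfl⟩ := h.2 v
      rw [prod_eq_zero (mem_univ u) (by rw [yv, if_pos hv, if_neg hv']), map_zero, mul_zero]
    · intro h1
      exact absurd (mem_powerset_self W) h1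
  · rw [if_neg h]
    obtain ⟨v, hv⟩ := not_forall.1 fun h1 : Function.Surjective φ =>
      h (Finite.surjective_iff_bijective.1 h1)
    have h1 : ∀ u, φ u ≠ v := fun u h1 => hv ⟨u, h1⟩
    by_cases hW : v ∈ W
    · have h2 : W.powerset = (insert v (W.erase v)).powerset := by rw [insert_erase hW]
      rw [h2, sum_powerset_insert (notMem_erase v W), ← sum_add_distrib]
      refine sum_eq_zero fun T hT => ?_
      have h3 : v ∉ T := (subset_erase.1 (mem_powerset.1 hT)).2
      have h4 : (W \ T).card = (W \ insert v T).card + 1 := by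
        rw [sdiff_insert, card_erase_add_one (mem_sdiff.2 ⟨hW, h3⟩)]
      have h5 : ∏ u, yv R W (insert v T) (φ u) = ∏ u, yv R W T (φ u) :=
        prod_congr rfl fun u _ => by simp only [yv, mem_insert, h1 u, false_or]
      rw [h4, h5, pow_succ]
      ring
    · refine sum_eq_zero fun T _ => ?_
      have h2 : pderiv v (∏ u, yv R W T (φ u)) = 0 := by
        refine prod_induction _ (fun p : MvPolynomial (Fin n) R => pderiv v p = 0)
          (fun a b ha hb => ?_) ?_ fun u _ => ?_
        · rw [Derivation.leibniz, ha, hb, smul_zero, smul_zero, add_zero]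
        · exact Derivation.map_one_eq_zero _
        · unfold yv
          split_ifs
          · exact Derivation.map_one_eq_zero _
          · exact map_zero _
          · exact pderiv_X_of_ne (h1 u)
      rw [co_pderiv (mem_compl.2 hW), h2, map_zero, mul_zero]

theorem lp_det (J : Finset (Fin n)) (A : Fin n → Fin n → R)
    (y : Fin n → MvPolynomial (Fin n) R) :
    (Lm J ∅ A y).det = ∑ φ : Fin n → Fin n, C ((∏ u, A u (φ u)) *
      (Matrix.of fun u v : Fin n => (if u = v then (1 : R) else 0) -
        (if v = φ u ∧ v ∉ J then 1 else 0)).det) * ∏ u, y (φ u) := by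
  have h1 : Lm J ∅ A y = fun u => ∑ w, (C (A u w) * y w) • fun v =>
      (C ((if u = v then (1 : R) else 0) - (if v = w ∧ v ∉ J then 1 else 0)) :
        MvPolynomial (Fin n) R) := by
    funext u v
    simp only [Lm, Matrix.of_apply, notMem_empty, if_false, Finset.sum_apply, Pi.smul_apply,
      smul_eq_mul, map_sub, mul_sub, sum_sub_distrib]
    congr 1
    · split_ifs <;> simp
    · rw [sum_eq_single v (fun w _ hw => by rw [if_neg fun h1 => hw h1.1.symm, map_zero, mul_zero])
        (fun h1 => absurd (mem_univ _) h1)]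
      by_cases h : v ∈ J <;> simp [h]
  have h2 := (Matrix.detRowAlternating (n := Fin n) (R := MvPolynomial (Fin n) R)
    ).toMultilinearMap.map_sum fun u w => (C (A u w) * y w) • fun v =>
      (C ((if u = v then (1 : R) else 0) - (if v = w ∧ v ∉ J then 1 else 0)) :
        MvPolynomial (Fin n) R)
  rw [h1]
  refine h2.trans (sum_congr rfl fun φ _ => ?_)
  rw [MultilinearMap.map_smul_univ, map_mul, RingHom.map_det, prod_mul_distrib, map_prod,
    smul_eq_mul, mul_right_comm]
  rfl

/-- multilinearity in the rows: row `u` is `∑ w, (C (A u w) * y w) • (e u - [w ∉ J] e w)` -/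
theorem lap (J W : Finset (Fin n)) (A : Fin n → Fin n → R) :
    cyc J A = ∑ T ∈ W.powerset, (-1) ^ (W \ T).card * co Wᶜ (Lm J ∅ A (yv R W T)).det := by
  simp only [lp_det, map_sum, co_C_mul, mul_sum]
  rw [sum_comm]
  simp only [mul_left_comm ((-1 : R) ^ _), ← mul_sum, sum_yv]
  rw [cyc, sum_filter]
  refine Fintype.sum_of_injective (fun σ : Equiv.Perm (Fin n) => (σ : Fin n → Fin n))
    (fun σ τ h => Equiv.ext (congrFun h)) _ _ (fun φ h => ?_) fun σ => ?_
  · rw [if_neg fun h1 => h ⟨Equiv.ofBijective φ h1, rfl⟩, mul_zero]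
  · rw [if_pos σ.bijective, det_perm, mul_one]
    split_ifs <;> simp

/-- the columns in `W \ T` are multiples of unit vectors -/
theorem lap_split (J W T : Finset (Fin n)) (hT : T ⊆ W) (A : Fin n → Fin n → R) :
    (Lm J ∅ A (yv R W T)).det =
      (∏ u ∈ W \ T, (C (∑ v ∈ T, A u v) + lf Wᶜ (A u))) * (Lm J (W \ T) A (yv R W T)).det := by
  have h1 : ∀ u, ∑ w, C (A u w) * yv R W T w = C (∑ v ∈ T, A u v) + lf Wᶜ (A u) := fun u => by
    rw [← sum_add_sum_compl W, lf, map_sum]
    congr 1
    · refine (sum_subset hT fun w hw hw' => ?_).symm.trans (sum_congr rfl fun w hw => ?_)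
      · rw [yv, if_pos hw, if_neg hw', mul_zero]
      · rw [yv, if_pos (hT hw), if_pos hw, mul_one]
    · exact sum_congr rfl fun w hw => by rw [yv, if_neg (mem_compl.1 hw)]
  have h2 : Lm J ∅ A (yv R W T) = Lm J (W \ T) A (yv R W T) * Matrix.diagonal fun v =>
      if v ∈ W \ T then C (∑ w ∈ T, A v w) + lf Wᶜ (A v) else 1 := by
    funext u v
    rw [Matrix.mul_diagonal]
    simp only [Lm, Matrix.of_apply, notMem_empty, if_false]
    by_cases h : v ∈ W \ T
    · have h3 : yv R W T v = 0 := by rw [yv, if_pos (mem_sdiff.1 h).1, if_neg (mem_sdiff.1 h).2]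
      rw [if_pos h, if_pos h, h3, mul_zero, ite_self, sub_zero]
      by_cases h4 : u = v
      · rw [if_pos h4, if_pos h4, one_mul, h1, h4]
      · rw [if_neg h4, if_neg h4, zero_mul]
    · rw [if_neg h, if_neg h, mul_one]
  rw [h2, Matrix.det_mul, Matrix.det_diagonal, prod_ite_mem, univ_inter, mul_comm]

end Pool.Agent.Lib.MP_8b1d3b_lc.Hc
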