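import Pool.Agent.Lib.MP_8b1d3b_lc.Hc.Defs

/-! Counting. -/

set_option autoImplicit false

namespace Pool.Agent.Lib.MP_8b1d3b_lc.Hc

open Finset MvPolynomial Gr

theorem nm_cosh (x : ℝ) : 1 + Real.exp x ≤ 2 * Real.exp (x / 2 + x ^ 2 / 8) := by
  have h1 := Real.cosh_le_exp_half_sq (x / 2)
  have h2 : 1 + Real.exp x = 2 * (Real.exp (x / 2) * Real.cosh (x / 2)) := by
    rw [Real.cosh_eq, mul_div_assoc', mul_add, ← Real.exp_add, ← Real.exp_add, add_halves,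
      add_neg_cancel, Real.exp_zero]
    ring
  rw [h2, Real.exp_add, show x ^ 2 / 8 = (x / 2) ^ 2 / 2 by ring]
  gcongr

/-- Hoeffding: `∑ S, exp (l * wt S) = ∏ v, (1 + exp (l * ω v))`, `Real.cosh_le_exp_half_sq` -/
theorem card_half {κ : Type} (U : Finset κ) (ω : κ → ℤ) (a : ℤ) {l : ℝ} (hl : 0 ≤ l) :
    ((U.powerset.filter fun S => a ≤ wt ω S).card : ℝ) ≤
      2 ^ U.card * Real.exp (l * (wt ω U / 2 - a) + l ^ 2 * (∑ v ∈ U, (ω v : ℝ) ^ 2) / 8) := by
  have h1 : ((U.powerset.filter fun S => a ≤ wt ω S).card : ℝ) ≤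
      ∑ S ∈ U.powerset, Real.exp (-(l * a)) * ∏ v ∈ S, Real.exp (l * ω v) := by
    rw [card_filter]
    push_cast
    refine sum_le_sum fun S _ => ?_
    split_ifs with h
    · rw [← Real.exp_sum, ← Real.exp_add, ← mul_sum]
      refine Real.one_le_exp ?_
      have h2 : (a : ℝ) ≤ ∑ v ∈ S, (ω v : ℝ) := by
        unfold wt at h
        exact_mod_cast h
      nlinarith
    · positivity
  refine h1.trans ?_
  rw [← mul_sum, ← prod_one_add]
  have h3 : ∏ v ∈ U, (1 + Real.exp (l * ω v)) ≤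
      ∏ v ∈ U, 2 * Real.exp (l * ω v / 2 + (l * ω v) ^ 2 / 8) :=
    prod_le_prod (fun v _ => by positivity) fun v _ => nm_cosh _
  refine (mul_le_mul_of_nonneg_left h3 (Real.exp_pos _).le).trans (le_of_eq ?_)
  rw [prod_mul_distrib, prod_const, ← Real.exp_sum, mul_left_comm, ← Real.exp_add]
  congr 2
  unfold wt
  push_cast
  rw [sum_add_distrib, ← sum_div, ← sum_div, ← mul_sum]
  simp only [mul_pow]
  rw [← mul_sum]
  ring

/-- `l = 2 j / N ^ 2` -/
theorem card_Hs {κ : Type} [DecidableEq κ] {U Z : Finset κ} (hZ : Z ⊆ U) {j : ℕ}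
    (hj : j ≤ (U \ Z).card) :
    ((Hs U Z j).card : ℝ) ≤
      2 ^ U.card * Real.exp (-((j : ℝ) ^ 2 * Z.card / (2 * (U.card : ℝ) ^ 2))) := by
  have hN : ((U \ Z).card : ℝ) + Z.card = U.card := by
    exact_mod_cast card_sdiff_add_card_eq_card hZ
  have hs : ∀ f : ℤ → ℝ, ∑ v ∈ U, f (om U Z j v) =
      (U \ Z).card * f Z.card + Z.card * f ((j : ℤ) - (U \ Z).card) := fun f => by
    rw [← sum_sdiff hZ, sum_congr rfl fun v hv => by rw [om, if_neg (mem_sdiff.1 hv).2],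
      sum_congr (s₁ := Z) rfl fun v hv => by rw [om, if_pos hv], sum_const, sum_const,
      nsmul_eq_mul, nsmul_eq_mul]
  have h1 := hs fun x => x
  have h2 := hs fun x => (x : ℝ) ^ 2
  have h3 : ((wt (om U Z j) U : ℤ) : ℝ) = ∑ v ∈ U, ((om U Z j v : ℤ) : ℝ) := by
    unfold wt
    push_cast
    rfl
  have hj' : (j : ℝ) ≤ (U \ Z).card := by exact_mod_cast hj
  refine (card_half U (om U Z j) ((j : ℤ) * Z.card) (l := 2 * j / (U.card : ℝ) ^ 2)
    (by positivity)).trans ?_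
  refine mul_le_mul_of_nonneg_left (Real.exp_le_exp.2 ?_) (by positivity)
  rw [h3, h1, h2]
  push_cast
  have a0 : (0 : ℝ) ≤ j := Nat.cast_nonneg j
  have a1 : (0 : ℝ) ≤ Z.card := Nat.cast_nonneg _
  generalize ((U \ Z).card : ℝ) = M at *
  generalize (Z.card : ℝ) = z at *
  generalize (U.card : ℝ) = N at *
  generalize (j : ℝ) = x at *
  rcases eq_or_ne N 0 with h | h
  · simp [h]
  have a2 : M * z ^ 2 + z * (x - M) ^ 2 ≤ z * N ^ 2 := by
    have a3 : (x - M) ^ 2 ≤ M ^ 2 := by nlinarith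
    have a4 : M * z + M ^ 2 ≤ N ^ 2 := by rw [← hN]; nlinarith
    nlinarith [mul_le_mul_of_nonneg_left a3 a1, mul_le_mul_of_nonneg_left a4 a1]
  have a5 := mul_le_mul_of_nonneg_left a2 (sq_nonneg (2 * x / N ^ 2))
  have a6 : 2 * x / N ^ 2 * ((M * z + z * (x - M)) / 2 - x * z) +
      (2 * x / N ^ 2) ^ 2 * (z * N ^ 2) / 8 = -(x ^ 2 * z / (2 * N ^ 2)) := by
    field_simp
    ring
  linarith

theorem card_big {κ : Type} (W : Finset κ) {n : ℕ} (hW : 4 * W.card ≤ n) :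
    ((W.powerset.filter fun T => 13 * n < 100 * T.card).card : ℝ) ≤
      2 ^ W.card * Real.exp (-(n / 5000)) := by
  have hw : ∀ T : Finset κ, wt (fun _ => (100 : ℤ)) T = 100 * T.card := fun T => by
    simp [wt, mul_comm]
  have h1 := card_half W (fun _ => (100 : ℤ)) (13 * n) (l := 8 / 10000) (by norm_num)
  have h2 : (W.powerset.filter fun T => 13 * n < 100 * T.card) ⊆
      W.powerset.filter fun S => (13 * n : ℤ) ≤ wt (fun _ => (100 : ℤ)) S := fun T hT => by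
    obtain ⟨a1, a2⟩ := mem_filter.1 hT
    refine mem_filter.2 ⟨a1, ?_⟩
    rw [hw]
    exact_mod_cast a2.le
  refine le_trans (by exact_mod_cast card_le_card h2) (h1.trans ?_)
  refine mul_le_mul_of_nonneg_left (Real.exp_le_exp.2 ?_) (by positivity)
  have h3 : (4 : ℝ) * W.card ≤ n := by exact_mod_cast hW
  rw [hw, sum_const, nsmul_eq_mul]
  push_cast
  linarith

theorem nm_geo {δ : ℝ} (h1 : δ ≤ 1) (m : ℕ) :
    δ * ∑ t ∈ range m, (1 - δ) ^ t ≤ 1 := by
  have h := mul_neg_geom_sum (1 - δ) m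
  rw [sub_sub_cancel] at h
  rw [h]
  exact sub_le_self _ (pow_nonneg (by linarith) _)

theorem nm_lin {δ : ℝ} (h0 : 0 < δ) (h1 : δ ≤ 1) (t : ℕ) :
    δ * (((t : ℝ) + 1) * (1 - δ) ^ t) ≤ 1 := by
  refine le_trans (mul_le_mul_of_nonneg_left ?_ h0.le) (nm_geo h1 (t + 1))
  have h := card_nsmul_le_sum (range (t + 1)) (fun i => (1 - δ) ^ i) ((1 - δ) ^ t) fun i hi =>
    pow_le_pow_of_le_one (by linarith) (by linarith) (Nat.lt_succ_iff.1 (mem_range.1 hi))
  rw [card_range, nsmul_eq_mul] at h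
  exact_mod_cast h

theorem nm_row {δ : ℝ} (h0 : 0 < δ) (h1 : δ ≤ 1) (n : ℕ) :
    ∑ o ∈ Ro n, (if o ≠ none then δ ^ 4 else 1) * (1 - δ) ^ (3 * dg o) ≤ 1 + δ := by
  have hy : 0 ≤ 1 - δ := by linarith
  rw [Ro, sum_insertNone]
  simp only [ne_eq, not_true_eq_false, if_false, dg, mul_zero, pow_zero, mul_one, reduceCtorEq,
    not_false_eq_true, if_true]
  refine add_le_add le_rfl ?_
  rw [sum_filter, sum_product]
  have h2 : ∀ t ∈ range (n + 1), (∑ p ∈ range (n + 1) ×ˢ range (n + 1),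
      if p.1 + p.2 ≤ t then δ ^ 4 * (1 - δ) ^ (3 * (t + 1)) else 0) ≤ δ ^ 2 * (1 - δ) ^ t := by
    intro t _
    rw [← sum_filter, sum_const, nsmul_eq_mul]
    have a1 : ((range (n + 1) ×ˢ range (n + 1)).filter fun p : ℕ × ℕ => p.1 + p.2 ≤ t).card ≤
        (t + 1) * (t + 1) := by
      refine (card_le_card (t := range (t + 1) ×ˢ range (t + 1)) fun p hp => ?_).trans
        (by rw [card_product, card_range])
      have := (mem_filter.1 hp).2
      exact mem_product.2 ⟨mem_range.2 (by omega), mem_range.2 (by omega)⟩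
    have a2 : ((((range (n + 1) ×ˢ range (n + 1)).filter
        fun p : ℕ × ℕ => p.1 + p.2 ≤ t).card : ℕ) : ℝ) ≤ (t + 1) * (t + 1) := by exact_mod_cast a1
    have a3 : (1 - δ) ^ (3 * (t + 1)) ≤ (1 - δ) ^ (t + t + t) :=
      pow_le_pow_of_le_one hy (by linarith) (by omega)
    have a4 := nm_lin h0 h1 t
    have a5 : (δ * (((t : ℝ) + 1) * (1 - δ) ^ t)) ^ 2 ≤ 1 := pow_le_one₀ (by positivity) a4
    calc _ ≤ ((t : ℝ) + 1) * (t + 1) * (δ ^ 4 * (1 - δ) ^ (t + t + t)) := by gcongr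
      _ = (δ * (((t : ℝ) + 1) * (1 - δ) ^ t)) ^ 2 * (δ ^ 2 * (1 - δ) ^ t) := by ring
      _ ≤ _ := mul_le_of_le_one_left (by positivity) a5
  refine (sum_le_sum h2).trans ?_
  rw [← mul_sum, sq, mul_assoc]
  exact mul_le_of_le_one_right h0.le (nm_geo h1 _)

/-- weights `y ^ (3 * dg)` and `δ ^ 4` per active row, `y = 1 - δ`, `δ = 2 ^ (-21)`;
`(t + 1) * y ^ t ≤ 1 / δ` -/
theorem card_Opt (n z : ℕ) : ((Opt n z).card : ℝ) ≤ Real.exp (n / 400000 + 60 * z) := by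
  obtain ⟨δ, hδ⟩ : ∃ δ : ℝ, δ = 1 / 2 ^ 21 := ⟨_, rfl⟩
  have h0 : 0 < δ := by rw [hδ]; norm_num
  have h1 : δ < 1 := by rw [hδ]; norm_num
  have hy : 0 < 1 - δ := by linarith
  let w : Option (ℕ × ℕ × ℕ) → ℝ := fun o => (if o ≠ none then δ ^ 4 else 1) * (1 - δ) ^ (3 * dg o)
  have w0 : ∀ o, 0 ≤ w o := fun o => by
    simp only [w]
    split_ifs <;> positivity
  have h2 : ∀ o ∈ Opt n z, (δ ^ 4) ^ z * ((1 - δ) ^ 3) ^ n ≤ ∏ u, w (o u) := fun o ho => by
    obtain ⟨_, a1, a2⟩ := mem_filter.1 ho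
    simp only [w]
    rw [prod_mul_distrib, prod_ite, prod_const, prod_const_one, mul_one, prod_pow_eq_pow_sum,
      ← mul_sum, pow_mul (1 - δ) 3]
    exact mul_le_mul (pow_le_pow_of_le_one (by positivity) (pow_le_one₀ h0.le h1.le) a2)
      (pow_le_pow_of_le_one (by positivity) (pow_le_one₀ hy.le (by linarith)) a1) (by positivity)
      (by positivity)
  have h3 := card_nsmul_le_sum (Opt n z) _ _ h2
  have h4 : ∑ o ∈ Opt n z, ∏ u, w (o u) ≤ (1 + δ) ^ n := by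
    refine (sum_le_sum_of_subset_of_nonneg (filter_subset _ _) fun o _ _ =>
      prod_nonneg fun u _ => w0 _).trans ?_
    rw [← prod_univ_sum (fun _ : Fin n => Ro n) fun _ o => w o, prod_const, card_univ,
      Fintype.card_fin]
    exact pow_le_pow_left₀ (sum_nonneg fun o _ => w0 o) (nm_row h0 h1.le n) n
  rw [nsmul_eq_mul] at h3
  have h5 : 1 + δ ≤ Real.exp (1 / 400000) * (1 - δ) ^ 3 := by
    refine le_trans ?_ (mul_le_mul_of_nonneg_right (Real.add_one_le_exp _) (by positivity))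
    rw [hδ]
    norm_num
  have h6 : 1 ≤ Real.exp 60 * δ ^ 4 := by
    have a1 : (2.7 : ℝ) ^ 60 ≤ Real.exp 1 ^ 60 :=
      pow_le_pow_left₀ (by norm_num) (by linarith [Real.exp_one_gt_d9]) 60
    rw [← Real.exp_nat_mul, mul_one] at a1
    refine le_trans ?_ (mul_le_mul_of_nonneg_right (by exact_mod_cast a1) (by positivity))
    rw [hδ]
    norm_num
  refine le_of_mul_le_mul_right ((h3.trans h4).trans ?_)
    (show 0 < (δ ^ 4) ^ z * ((1 - δ) ^ 3) ^ n by positivity)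
  rw [Real.exp_add, show (n : ℝ) / 400000 = n * (1 / 400000) by ring, mul_comm (60 : ℝ),
    Real.exp_nat_mul, Real.exp_nat_mul]
  calc _ ≤ (Real.exp (1 / 400000) * (1 - δ) ^ 3) ^ n * (Real.exp 60 * δ ^ 4) ^ z :=
        (pow_le_pow_left₀ (by linarith) h5 n).trans
          (le_mul_of_one_le_right (by positivity) (one_le_pow₀ h6))
    _ = _ := by rw [mul_pow, mul_pow]; ring

theorem final : ∃ n₀ : ℕ, ∀ n, n₀ ≤ n →
    (10 : ℝ) ^ 200 * (n + 1) ^ 400 * (3 * n + 5) ^ (2200 * (Nat.log 2 n + 1)) ≤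
      Real.exp (n / 10 ^ 13) := by
  have h := (Real.isLittleO_pow_log_id_atTop (n := 2)).bound
    (show (0 : ℝ) < 1 / (14400 * 10 ^ 13) by norm_num)
  obtain ⟨x₀, hx⟩ := Filter.eventually_atTop.1 h
  refine ⟨⌈x₀⌉₊ + 5, fun n hn => ?_⟩
  have n5 : (5 : ℝ) ≤ n := by exact_mod_cast (by omega : 5 ≤ n)
  have n0 : (0 : ℝ) < n := by linarith
  have h1 := hx n ((Nat.le_ceil x₀).trans (by exact_mod_cast (by omega : ⌈x₀⌉₊ ≤ n)))
  rw [id, Real.norm_of_nonneg (sq_nonneg _), Real.norm_of_nonneg n0.le] at h1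
  have l2 := Real.log_two_gt_d9
  have h2 : (Nat.log 2 n : ℝ) * Real.log 2 ≤ Real.log n := by
    rw [← Real.log_pow]
    refine Real.log_le_log (by positivity) ?_
    exact_mod_cast Nat.pow_log_le_self 2 (by omega : n ≠ 0)
  have h3 : 1 ≤ Real.log n := by
    rw [Real.le_log_iff_exp_le n0]
    linarith [Real.exp_one_lt_d9]
  have h4 : (n : ℝ) ^ 2 = Real.exp (2 * Real.log n) := by
    rw [show (2 : ℝ) = (2 : ℕ) by norm_num, Real.exp_nat_mul, Real.exp_log n0]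
  have h5 : (0 : ℝ) ≤ Nat.log 2 n := Nat.cast_nonneg _
  have h6 : (Nat.log 2 n : ℝ) ≤ 2 * Real.log n := by nlinarith
  calc _ ≤ ((n : ℝ) ^ 2) ^ 200 * ((n : ℝ) ^ 2) ^ 400 *
        ((n : ℝ) ^ 2) ^ (2200 * (Nat.log 2 n + 1)) := by
        gcongr <;> nlinarith
    _ = Real.exp (((600 + 2200 * (Nat.log 2 n + 1) : ℕ) : ℝ) * (2 * Real.log n)) := by
        rw [← pow_add, ← pow_add, h4, Real.exp_nat_mul]
    _ ≤ _ := by
        refine Real.exp_le_exp.2 ?_
        push_cast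
        have a1 : Real.log n ≤ Real.log n ^ 2 := by nlinarith
        have a2 := mul_le_mul_of_nonneg_right h6 (show 0 ≤ Real.log n by linarith)
        nlinarith

end Pool.Agent.Lib.MP_8b1d3b_lc.Hc
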