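import Pool.Agent.Lib.MP_8b1d3b_lc.Hc.Ml
import Pool.Agent.Lib.MP_8b1d3b_lc.Hc.Det
import Pool.Agent.Lib.MP_8b1d3b_lc.Hc.Lap
import Pool.Agent.Lib.MP_8b1d3b_lc.Hc.Fam
import Pool.Agent.Lib.MP_8b1d3b_lc.Hc.Num

/-! Skew programs below `2 ^ n` for the cycle covers whose cycles meet a given set. -/

set_option autoImplicit false

namespace Pool.Agent.Lib.MP_8b1d3b_lc.Hc

open Finset MvPolynomial Gr

theorem two_pow_le {a k N : ℕ} (h : a + k ≤ N) {x : ℝ} (hx : x ≤ k / 2) :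
    (2 : ℝ) ^ a ≤ 2 ^ N * Real.exp (-x) := by
  have h1 : Real.exp (k / 2) ≤ 2 ^ k := by
    rw [div_eq_mul_inv, Real.exp_nat_mul]
    refine pow_le_pow_left₀ (Real.exp_pos _).le ?_ _
    rw [← Real.le_log_iff_exp_le two_pos]
    linarith [Real.log_two_gt_d9]
  rw [Real.exp_neg, ← div_eq_mul_inv, le_div_iff₀ (Real.exp_pos _)]
  calc _ ≤ (2 : ℝ) ^ a * 2 ^ k := by
        gcongr
        exact (Real.exp_le_exp.2 hx).trans h1
    _ ≤ _ := by
        rw [← pow_add]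
        exact pow_le_pow_right₀ one_le_two h

theorem hs_le {κ : Type} [DecidableEq κ] {U Z : Finset κ} (hZ : Z ⊆ U) {j n : ℕ}
    (hj : j ≤ (U \ Z).card) (h0 : 0 < U.card) (hU : U.card ≤ n) (hn : n ≤ 126 * j) {x : ℝ}
    (hx : 31752 * x ≤ Z.card) : ((Hs U Z j).card : ℝ) ≤ 2 ^ U.card * Real.exp (-x) := by
  refine (card_Hs hZ hj).trans ?_
  gcongr
  have h1 : (0 : ℝ) < U.card := by exact_mod_cast h0
  have h2 : (U.card : ℝ) ≤ 126 * j := by exact_mod_cast hU.trans hn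
  have h3 : (U.card : ℝ) ^ 2 ≤ (126 * j) ^ 2 := by gcongr
  have h4 : (0 : ℝ) ≤ Z.card := Nat.cast_nonneg _
  rw [le_div_iff₀ (by positivity)]
  nlinarith [mul_le_mul_of_nonneg_right hx (sq_nonneg (U.card : ℝ)),
    mul_le_mul_of_nonneg_right h3 h4]

variable {R : Type*} [CommRing R] {At : Set R}

theorem pr_Lm (hZ : ∀ z : ℤ, (z : R) ∈ At) {n : ℕ} (J F W T : Finset (Fin n))
    {A : Fin n → Fin n → R} (hA : ∀ u v, A u v ∈ At) :
    Pr (Lt (Fin n) At) (60 * (n + 1) ^ 6) (Lm J F A (yv R W T)).det := by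
  have h0 : (0 : R) ∈ At := by simpa using hZ 0
  have hL := Lt_int (κ := Fin n) hZ
  have g0 : (0 : MvPolynomial (Fin n) R) ∈ Lt (Fin n) At := by simpa using hL 0
  have g1 : (1 : MvPolynomial (Fin n) R) ∈ Lt (Fin n) At := by simpa using hL 1
  have hy : ∀ u v, Pr (Lt (Fin n) At) 2 (C (A u v) * yv R W T v) := fun u v =>
    Reach.mul ((Pr.atom (hA u v)).mC h0) (by
      unfold yv
      split_ifs
      exacts [g1, g0, Lt_X v])
  refine (Pr.det (c := 3 * n + 5) hL _ fun u v => ?_).le (by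
    rw [pow_succ _ 5]
    nlinarith [Nat.zero_le ((n + 1) ^ 5)])
  rw [Lm, Matrix.of_apply]
  by_cases h1 : v ∈ F
  · rw [if_pos h1]
    refine (Pr.atom ?_).le (by omega)
    split_ifs <;> assumption
  · rw [if_neg h1]
    refine (Pr.sub (c := 3 * n + 1) (c' := 2) hL ?_ ?_).le (by omega)
    · split_ifs
      · exact (Pr.sum g0 _ fun w _ => hy u w).le (by simp [mul_comm])
      · exact (Pr.atom g0).le (by omega)
    · split_ifs
      · exact (Pr.atom g0).le (by omega)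
      · exact hy u v

theorem typical (hZ : ∀ z : ℤ, (z : R) ∈ At) {n : ℕ} (hn : 10 ^ 9 ≤ n) (J : Finset (Fin n))
    {W : Finset (Fin n)} (hW : W.card = n / 4) (I : Ideal R) {A : Fin n → Fin n → R}
    (hA : ∀ u v, A u v ∈ At) (hI : ∀ u ∈ W, ∀ v ∈ W, u ≠ v → A u v ∈ I) {B : ℕ}
    (hB : 2 * (n + 1) ≤ B) (hD : ∀ F T, Pr (Lt (Fin n) At) B (Lm J F A (yv R W T)).det) :
    ∃ c : ℕ, (c : ℝ) ≤ 2 * 10 ^ 20 * B ^ 50 * (2 ^ Wᶜ.card * Real.exp (-(12 * n / 10 ^ 13))) ∧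
      ∀ T ⊆ W, 100 * T.card ≤ 13 * n → ∃ y,
        co Wᶜ (Lm J ∅ A (yv R W T)).det - y ∈ I ^ (93 * n / 1000) ∧ Pr At c y := by
  have h0 : (0 : R) ∈ At := by simpa using hZ 0
  have hU : Wᶜ.card = n - n / 4 := by rw [card_compl, Fintype.card_fin, hW]
  obtain ⟨Z, hZU, hZc⟩ := exists_subset_card_eq (s := Wᶜ) (n := n / 25000000) (by omega)
  have hc1 : (Wᶜ \ Z).card + Z.card = Wᶜ.card := card_sdiff_add_card_eq_card hZU
  obtain ⟨P, hPU, hPc⟩ := exists_subset_card_eq (s := Wᶜ \ Z) (n := (Wᶜ \ Z).card / 2) (by omega)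
  set Q := (Wᶜ \ Z) \ P with hQ
  have hc2 : Q.card + P.card = (Wᶜ \ Z).card := card_sdiff_add_card_eq_card hPU
  have hZP : Disjoint Z P := disjoint_sdiff.mono_right hPU
  have hZQ : Disjoint Z Q := disjoint_sdiff.mono_right sdiff_subset
  have hPQ : Disjoint P Q := disjoint_sdiff
  have hun : Z ∪ P ∪ Q = Wᶜ := by
    rw [union_assoc, union_sdiff_of_subset hPU, union_sdiff_of_subset hZU]
  have hP' : Wᶜ \ (Z ∪ Q) = P := by
    rw [← hun, union_right_comm, union_sdiff_cancel_left (disjoint_union_left.2 ⟨hZP, hPQ.symm⟩)]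
  have hQ' : Wᶜ \ (Z ∪ P) = Q := by
    rw [← hun, union_sdiff_cancel_left (disjoint_union_left.2 ⟨hZQ, hPQ⟩)]
  have hz : (n : ℝ) ≤ 26000000 * Z.card := by exact_mod_cast (by omega : n ≤ 26000000 * Z.card)
  have hz' : 25000000 * (Z.card : ℝ) ≤ n := by exact_mod_cast (by omega : 25000000 * Z.card ≤ n)
  have hn0 : (0 : ℝ) ≤ n := Nat.cast_nonneg _
  have hs : ∀ Y ⊆ Wᶜ, n ≤ 3 * Y.card → ∀ j, n / 125 ≤ j → j ≤ (Wᶜ \ Y).card →
      (Hs Wᶜ Y j).card ≤ ⌊(2 : ℝ) ^ Wᶜ.card * Real.exp (-(n / 100000))⌋₊ := fun Y hY hc j h1 h2 =>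
    Nat.le_floor (hs_le (n := n) hY h2 (by omega) (by omega) (by omega) (by
      have : (n : ℝ) ≤ 3 * Y.card := by exact_mod_cast hc
      linarith))
  have hk : (n : ℝ) / 100000 ≤ (n / 5 : ℕ) / 2 := by
    have : (n : ℝ) ≤ 6 * (n / 5 : ℕ) := by exact_mod_cast (by omega : n ≤ 6 * (n / 5))
    linarith
  refine ⟨10 ^ 20 * B ^ 50 *
    (⌊(2 : ℝ) ^ Wᶜ.card * Real.exp (-(12 * n / 10 ^ 13))⌋₊ + (Opt n Z.card).card *
      ⌊(2 : ℝ) ^ Wᶜ.card * Real.exp (-(n / 100000))⌋₊), ?_, fun T hT hc => ?_⟩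
  · have h1 : ((Opt n Z.card).card : ℝ) * ⌊(2 : ℝ) ^ Wᶜ.card * Real.exp (-(n / 100000))⌋₊ ≤
        2 ^ Wᶜ.card * Real.exp (-(12 * n / 10 ^ 13)) :=
      calc _ ≤ Real.exp (n / 400000 + 60 * Z.card) * (2 ^ Wᶜ.card * Real.exp (-(n / 100000))) := by
            gcongr
            · exact card_Opt _ _
            · exact Nat.floor_le (by positivity)
        _ ≤ _ := by
            rw [mul_left_comm, ← Real.exp_add]
            gcongr
            linarith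
    have h2 := Nat.floor_le (a := (2 : ℝ) ^ Wᶜ.card * Real.exp (-(12 * n / 10 ^ 13)))
      (by positivity)
    push_cast
    calc _ ≤ (10 : ℝ) ^ 20 * B ^ 50 * (2 * (2 ^ Wᶜ.card * Real.exp (-(12 * n / 10 ^ 13)))) :=
          mul_le_mul (le_of_eq (by norm_num)) (by linarith) (by positivity) (by positivity)
      _ = _ := by ring
  have hF : (W \ T).card + T.card = W.card := card_sdiff_add_card_eq_card hT
  have := ml hZ I (W \ T) hZP hZQ hPQ (by rw [hun]; omega) (fun u => ∑ v ∈ T, A u v)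
    (fun u hu => sum_mem fun v hv => hI u (mem_sdiff.1 hu).1 v (hT hv)
      fun h => (mem_sdiff.1 hu).2 (h ▸ hv)) A hA (B := B) (by omega)
    (fun u => (Pr.sum h0 T fun v _ => Pr.atom (hA u v)).le (by omega)) (hD (W \ T) T)
    (e := 93 * n / 1000) (t := n / 125)
    (G₁ := ⌊(2 : ℝ) ^ Wᶜ.card * Real.exp (-(12 * n / 10 ^ 13))⌋₊)
    (G₂ := ⌊(2 : ℝ) ^ Wᶜ.card * Real.exp (-(n / 100000))⌋₊) (by omega)
  rw [hun] at this
  rw [lap_split J W T hT]
  refine this (fun j h1 h2 => Nat.le_floor (hs_le (n := n) hZU h2 (by omega) (by omega) (by omega)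
    (by linarith))) (Nat.le_floor ?_) (fun j h1 h2 => hs _ ?_ ?_ j h1 (hP'.symm ▸ h2))
    (fun j h1 h2 => hs _ ?_ ?_ j h1 (hQ'.symm ▸ h2)) (Nat.le_floor ?_) (Nat.le_floor ?_)
  · push_cast
    exact two_pow_le (k := Z.card) hc1.le (by linarith)
  · exact union_subset hZU (sdiff_subset.trans sdiff_subset)
  · rw [card_union_of_disjoint hZQ]
    omega
  · exact union_subset hZU (hPU.trans sdiff_subset)
  · rw [card_union_of_disjoint hZP]
    omega
  · push_cast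
    exact two_pow_le (k := n / 5) (by omega) hk
  · push_cast
    exact two_pow_le (k := n / 5) (by omega) hk

theorem fast (hZ : ∀ z : ℤ, (z : R) ∈ At) {n : ℕ} (hn : 10 ^ 9 ≤ n) (J : Finset (Fin n))
    {W : Finset (Fin n)} (hW : W.card = n / 4) (I : Ideal R) {A : Fin n → Fin n → R}
    (hA : ∀ u v, A u v ∈ At) (hI : ∀ u ∈ W, ∀ v ∈ W, u ≠ v → A u v ∈ I) {B : ℕ}
    (hB : 2 * (n + 1) ≤ B) (hD : ∀ F T, Pr (Lt (Fin n) At) B (Lm J F A (yv R W T)).det) :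
    ∃ y, cyc J A - y ∈ I ^ (93 * n / 1000) ∧ Pr At ⌊(10 : ℝ) ^ 21 * B ^ 50 *
      (2 ^ n * Real.exp (-(12 * n / 10 ^ 13)))⌋₊ y := by
  have h0 : (0 : R) ∈ At := by simpa using hZ 0
  have h1 : (1 : R) ∈ At := by simpa using hZ 1
  have hs : ∀ k : ℕ, (-1 : R) ^ k ∈ At := fun k => by simpa using hZ ((-1) ^ k)
  obtain ⟨c, hc, h⟩ := typical hZ hn J hW I hA hI hB hD
  choose! y hy1 hy2 using h
  have hU : W.card + Wᶜ.card = n := by rw [card_add_card_compl, Fintype.card_fin]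
  refine ⟨_, ?_, ((Pr.sum h0 (W.powerset.filter fun T => ¬ 13 * n < 100 * T.card)
    (f := fun T => y T * (-1) ^ (W \ T).card) fun T hT => Reach.mul
      (hy2 T (mem_powerset.1 (mem_filter.1 hT).1) (not_lt.1 (mem_filter.1 hT).2)) (hs _)).add
    (Pr.sum h0 (W.powerset.filter fun T => 13 * n < 100 * T.card)
      (f := fun T => co Wᶜ (Lm J ∅ A (yv R W T)).det * (-1) ^ (W \ T).card) fun T _ =>
      Reach.mul (plain h0 h1 Wᶜ (hD ∅ T)) (hs _))).le (Nat.le_floor ?_)⟩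
  · rw [lap J W, ← sum_filter_not_add_sum_filter _ fun T => 13 * n < 100 * T.card]
    simp only [mul_comm ((-1 : R) ^ _)]
    rw [add_sub_add_right_eq_sub, ← sum_sub_distrib]
    refine sum_mem fun T hT => ?_
    rw [← sub_mul]
    exact Ideal.mul_mem_right _ _
      (hy1 T (mem_powerset.1 (mem_filter.1 hT).1) (not_lt.1 (mem_filter.1 hT).2))
  · have hn0 : (0 : ℝ) ≤ n := Nat.cast_nonneg _
    have a1 : ((W.powerset.filter fun T => ¬ 13 * n < 100 * T.card).card : ℝ) ≤ 2 ^ W.card := by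
      exact_mod_cast (card_filter_le _ _).trans (card_powerset W).le
    have a2 : ((W.powerset.filter fun T => 13 * n < 100 * T.card).card : ℝ) ≤
        2 ^ W.card * Real.exp (-(12 * n / 10 ^ 13)) := (card_big W (by omega)).trans
      (mul_le_mul_of_nonneg_left (Real.exp_le_exp.2 (by linarith)) (by positivity))
    have a3 : (1 : ℝ) ≤ 2 ^ Wᶜ.card * Real.exp (-(12 * n / 10 ^ 13)) := by
      have : (n : ℝ) ≤ 2 * Wᶜ.card := by exact_mod_cast (by omega : n ≤ 2 * Wᶜ.card)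
      simpa using two_pow_le (a := 0) (k := Wᶜ.card) (N := Wᶜ.card) (x := 12 * n / 10 ^ 13)
        (by omega) (by linarith)
    have a4 : (1 : ℝ) ≤ B := by exact_mod_cast (by omega : 1 ≤ B)
    have a5 : (B : ℝ) ≤ B ^ 50 := le_self_pow₀ a4 (by omega)
    have a6 : (2 : ℝ) ^ n = 2 ^ W.card * 2 ^ Wᶜ.card := by rw [← pow_add, hU]
    have a7 : (1 : ℝ) ≤ 2 ^ W.card := one_le_pow₀ one_le_two
    have a8 : (1 : ℝ) ≤ 2 ^ Wᶜ.card := one_le_pow₀ one_le_two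
    have a9 := Real.exp_pos (-(12 * n / 10 ^ 13 : ℝ))
    push_cast
    rw [a6]
    generalize (B : ℝ) ^ 50 = D at *
    generalize (2 : ℝ) ^ W.card = a at *
    generalize (2 : ℝ) ^ Wᶜ.card = b at *
    generalize Real.exp (-(12 * n / 10 ^ 13 : ℝ)) = E at *
    have b1 : 1 ≤ D * (b * E) := one_le_mul_of_one_le_of_one_le (a4.trans a5) a3
    have b2 : 1 ≤ D * b := one_le_mul_of_one_le_of_one_le (a4.trans a5) a8
    have b3 : 1 ≤ a * (D * (b * E)) := one_le_mul_of_one_le_of_one_le a7 b1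
    have b4 : B * b ≤ D * b := by gcongr
    calc _ ≤ a * ((2 * 10 ^ 20 + 2) * (D * (b * E))) + 1 + (a * E * (3 * (D * b)) + 1) + 1 := by
          gcongr <;> linarith
      _ = (2 * 10 ^ 20 + 5) * (a * (D * (b * E))) + 3 := by ring
      _ ≤ 10 ^ 21 * (a * (D * (b * E))) := by linarith
      _ = _ := by ring

theorem numer {n : ℕ} {S T B : ℝ} (h : 10 ^ 200 * S * T ≤ Real.exp (n / 10 ^ 13)) (hS : 1 ≤ S)
    (hT : 0 ≤ T) (hB : B ≤ 60 ^ 50 * S) :
    (10 ^ 21 * B * (2 ^ n * Real.exp (-(12 * n / 10 ^ 13))) + 3) * T ≤ (2 - 1 / 10 ^ 12) ^ n := by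
  have hn0 : (0 : ℝ) ≤ n := Nat.cast_nonneg _
  have a3 : (1 : ℝ) ≤ 2 ^ n * Real.exp (-(12 * n / 10 ^ 13)) := by
    simpa using two_pow_le (a := 0) (k := n) (N := n) (x := 12 * n / 10 ^ 13)
      (by omega) (by linarith)
  have a7 : 2 * Real.exp (-(11 / 10 ^ 13)) ≤ 2 - 1 / 10 ^ 12 := by
    have b1 := Real.add_one_le_exp (11 / 10 ^ 13)
    rw [Real.exp_neg, ← div_eq_mul_inv, div_le_iff₀ (Real.exp_pos _)]
    linarith
  have a8 := one_le_mul_of_one_le_of_one_le hS a3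
  have a9 := mul_le_mul_of_nonneg_right hB (zero_le_one.trans a3)
  calc _ ≤ 10 ^ 200 * (S * (2 ^ n * Real.exp (-(12 * n / 10 ^ 13)))) * T :=
        mul_le_mul_of_nonneg_right (by linarith) hT
    _ = 10 ^ 200 * S * T * (2 ^ n * Real.exp (-(12 * n / 10 ^ 13))) := by ring
    _ ≤ Real.exp (n / 10 ^ 13) * (2 ^ n * Real.exp (-(12 * n / 10 ^ 13))) := by gcongr
    _ = (2 * Real.exp (-(11 / 10 ^ 13))) ^ n := by
        rw [mul_left_comm, ← Real.exp_add, mul_pow, ← Real.exp_nat_mul]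
        congr 2
        ring
    _ ≤ _ := by gcongr

theorem pow_aux (n : ℕ) {a b c : ℕ} (h : a * b ≤ c) :
    ((60 * (n + 1) ^ a : ℕ) : ℝ) ^ b ≤ 60 ^ b * (n + 1) ^ c := by
  push_cast
  rw [mul_pow, ← pow_mul]
  exact mul_le_mul_of_nonneg_left
    (pow_le_pow_right₀ (le_add_of_nonneg_left (Nat.cast_nonneg _)) h) (by positivity)

theorem main : ∃ n₀ : ℕ, ∀ n, n₀ ≤ n → ∀ (K : Type*) [CommRing K] (J : Finset (Fin n)),
    ∃ c : ℕ, (c : ℝ) ≤ (2 - 1 / 10 ^ 12) ^ n ∧ Sk (Lt (Fin n × Fin n) (Set.univ : Set K))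
      {cyc J fun u v => X (u, v)} c := by
  obtain ⟨n₀, h⟩ := final
  refine ⟨max n₀ (10 ^ 9), fun n hn K _ J => ?_⟩
  have hn1 : 10 ^ 9 ≤ n := le_of_max_le_right hn
  obtain ⟨W, hW, hσ⟩ := fam n (Nat.log 2 n + 1) (Nat.lt_pow_succ_log_self one_lt_two n).le
    (by omega)
  have hZ : ∀ z : ℤ, (z : K) ∈ (Set.univ : Set K) := fun _ => trivial
  refine ⟨_, ?_, Reach.st (glue hZ (e := 93 * n / 1000)
    (c := ⌊(10 : ℝ) ^ 21 * (60 * (n + 1) ^ 6 : ℕ) ^ 50 *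
      (2 ^ n * Real.exp (-(12 * n / 10 ^ 13)))⌋₊)
    (fun k => wi (W k)) _ (fun d hd => ?_) fun k => ?_)⟩
  · have hn0 : (1 : ℝ) ≤ n + 1 := le_add_of_nonneg_left (Nat.cast_nonneg _)
    have a4 : ((93 * n / 1000 : ℕ) : ℝ) ≤ n := by exact_mod_cast (by omega : 93 * n / 1000 ≤ n)
    refine le_trans ?_ (numer (B := ((60 * (n + 1) ^ 6 : ℕ) : ℝ) ^ 50)
      (h n (le_of_max_le_left hn)) (one_le_pow₀ hn0) (by positivity) ?_)
    · rw [Nat.cast_mul, Nat.cast_pow, Nat.cast_add, Nat.cast_add, Nat.cast_mul]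
      refine mul_le_mul (add_le_add (Nat.floor_le (by positivity)) (le_of_eq (by norm_num)))
        (pow_le_pow_left₀ (by positivity) ?_ _) (by positivity) (by positivity)
      push_cast
      linarith
    · exact pow_aux n (by norm_num)
  · obtain ⟨σ, h1⟩ := cyc_weight J d hd
    obtain ⟨k, h2⟩ := hσ σ
    exact ⟨k, by rw [h1]; omega⟩
  · obtain ⟨y, h1, h2⟩ := fast (Lt_int hZ) hn1 J (hW k) (Hi K (wi (W k)) 1)
      (A := fun u v => X (u, v)) (fun u v => Lt_X _) (fun u hu v hv huv d hd => by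
        rw [coeff_X] at hd
        split_ifs at hd with h3
        · rw [← h3, Finsupp.weight_single, one_smul, wi, if_pos ⟨hu, hv, huv⟩]
        · exact absurd rfl hd) (B := 60 * (n + 1) ^ 6)
      (Nat.mul_le_mul (by omega) (Nat.le_self_pow (by omega) _))
      fun F T => pr_Lm (Lt_int hZ) J F _ T fun u v => Lt_X _
    have h3 := low_of_hi h1
    rw [map_sub, sub_eq_zero] at h3
    exact ⟨y, h3.symm, h2⟩

end Pool.Agent.Lib.MP_8b1d3b_lc.Hc
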