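import Pool.Agent.Lib.MP_8b1d3b_lc.Hc.Tr

/-! Row contents and the expansion of a row factor. -/

set_option autoImplicit false

namespace Pool.Agent.Lib.MP_8b1d3b_lc.Hc

open Finset MvPolynomial Gr

/-- the exponents of a row content -/
def ex : Option (ℕ × ℕ × ℕ) → Fin 4 → ℕ
  | none => 0
  | some q => ![1, q.2.1, q.2.2, q.1 - q.2.1 - q.2.2]

/-- the coefficient of a row content -/
def oe : Option (ℕ × ℕ × ℕ) → ℤ
  | none => 1
  | some q => (-1) ^ q.1 * (q.1.choose q.2.1) * ((q.1 - q.2.1).choose q.2.2)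

theorem dg_eq {n : ℕ} {o : Option (ℕ × ℕ × ℕ)} (h : o ∈ Ro n) :
    dg o = ex o 0 + ex o 1 + ex o 2 + ex o 3 ∧ dg o ≤ n + 1 := by
  rcases o with _ | ⟨t, i, j⟩
  · simp [dg, ex]
  · simp only [Ro, some_mem_insertNone, mem_filter, mem_product, mem_range] at h
    simp only [dg, ex, Matrix.cons_val]
    omega

theorem ex_zero (o : Option (ℕ × ℕ × ℕ)) : ex o 0 = if o ≠ none then 1 else 0 := by
  rcases o with _ | q <;> simp [ex]

theorem card_Ro (n : ℕ) : (Ro n).card ≤ (n + 1) ^ 3 + 1 := by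
  rw [Ro, card_insertNone]
  refine Nat.add_le_add_right ((card_filter_le _ _).trans (le_of_eq ?_)) 1
  simp only [card_product, card_range]
  ring

section
variable {S : Type*} [CommRing S]

/-- the term of a row content -/
def tm (b : Fin 4 → S) (o : Option (ℕ × ℕ × ℕ)) : S := (oe o : S) * ∏ i, b i ^ ex o i

/-- the row series -/
noncomputable def gam (n : ℕ) (b : Fin 4 → S) : Polynomial S :=
  ∑ o ∈ Ro n, Polynomial.X ^ dg o * Polynomial.C (tm b o)

theorem tri {n t : ℕ} (ht : t ≤ n) (p q r : S) :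
    ∑ i ∈ range (n + 1), ∑ j ∈ range (n + 1), (if i + j ≤ t then
      ((t.choose i : ℕ) : S) * ((t - i).choose j : ℕ) * (p ^ i * q ^ j * r ^ (t - i - j)) else 0) =
      (p + (q + r)) ^ t := by
  rw [add_pow]
  symm
  refine (sum_congr rfl fun i hi => ?_).trans (sum_subset (range_mono (by omega)) fun i _ hi =>
    sum_eq_zero fun j _ => if_neg (by simp only [mem_range] at hi; omega))
  have h1 := mem_range.1 hi
  rw [add_pow, mul_sum, sum_mul]
  refine (sum_congr rfl fun j hj => ?_).trans (sum_subset (range_mono (by omega)) fun j _ hj =>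
    if_neg (by simp only [mem_range] at hj; omega))
  rw [if_pos (by have := mem_range.1 hj; omega)]
  ring

theorem gam_eq (n : ℕ) (b : Fin 4 → S) : gam n b = 1 + Polynomial.X * Polynomial.C (b 0) *
    ∑ t ∈ range (n + 1), (-(Polynomial.X * Polynomial.C (b 1 + (b 2 + b 3)))) ^ t := by
  rw [gam, Ro, sum_insertNone, sum_filter, sum_product, mul_sum]
  congr 1
  · simp [dg, tm, oe, ex]
  refine sum_congr rfl fun t ht => ?_
  rw [neg_pow, mul_pow, ← map_pow, ← tri (Nat.lt_succ_iff.1 (mem_range.1 ht)), sum_product, map_sum,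
    mul_sum, mul_sum, mul_sum]
  refine sum_congr rfl fun i _ => ?_
  rw [map_sum, mul_sum, mul_sum, mul_sum]
  refine sum_congr rfl fun j _ => ?_
  by_cases h : i + j ≤ t
  · rw [if_pos h, if_pos h]
    simp only [dg, tm, oe, ex, Fin.prod_univ_four, Matrix.cons_val]
    push_cast
    simp only [map_mul, map_pow, map_neg, map_one]
    ring
  · rw [if_neg h, if_neg h]
    simp

theorem gam_spec (n : ℕ) (b : Fin 4 → S) : Polynomial.X ^ (n + 1) ∣
    (1 + Polynomial.X * Polynomial.C (b 0 + (b 1 + (b 2 + b 3)))) -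
      (1 + Polynomial.X * Polynomial.C (b 1 + (b 2 + b 3))) * gam n b := by
  rw [gam_eq, map_add]
  generalize Polynomial.C (b 1 + (b 2 + b 3)) = d
  have h1 := mul_neg_geom_sum (-(Polynomial.X * d)) (n + 1)
  refine ⟨Polynomial.X * Polynomial.C (b 0) * (-d) ^ (n + 1), ?_⟩
  rw [← mul_neg, mul_pow] at h1
  rw [← mul_neg]
  linear_combination (-(Polynomial.X * Polynomial.C (b 0))) * h1

theorem coeff_split {n k : ℕ} (hk : k ≤ n) (b : Fin n → Fin 4 → S) :
    (∏ u, (1 + Polynomial.X * Polynomial.C (b u 0 + (b u 1 + (b u 2 + b u 3))))).coeff k =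
      ∑ r ∈ range (k + 1),
        (∏ u, (1 + Polynomial.X * Polynomial.C (b u 1 + (b u 2 + b u 3)))).coeff (k - r) *
          (∏ u, gam n (b u)).coeff r := by
  have h1 : Polynomial.X ^ (n + 1) ∣
      (∏ u, (1 + Polynomial.X * Polynomial.C (b u 0 + (b u 1 + (b u 2 + b u 3))))) -
      (∏ u, gam n (b u)) * ∏ u, (1 + Polynomial.X * Polynomial.C (b u 1 + (b u 2 + b u 3))) := by
    rw [← Ideal.mem_span_singleton, ← Ideal.Quotient.eq, ← prod_mul_distrib, map_prod, map_prod]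
    exact prod_congr rfl fun u _ => Ideal.Quotient.eq.2 (Ideal.mem_span_singleton.2
      (by rw [mul_comm (gam _ _)]; exact gam_spec n (b u)))
  have h2 := Polynomial.X_pow_dvd_iff.1 h1 k (by omega)
  rw [Polynomial.coeff_sub, sub_eq_zero] at h2
  rw [h2, Polynomial.coeff_mul, Nat.sum_antidiagonal_eq_sum_range_succ_mk]
  exact sum_congr rfl fun r _ => mul_comm _ _

theorem coeff_gam {n : ℕ} (b : Fin n → Fin 4 → S) (r : ℕ) :
    (∏ u, gam n (b u)).coeff r = ∑ o ∈ Fintype.piFinset fun _ : Fin n => Ro n,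
      if r = ∑ u, dg (o u) then ∏ u, tm (b u) (o u) else 0 := by
  simp only [gam]
  rw [prod_univ_sum, Polynomial.finsetSum_coeff]
  refine sum_congr rfl fun o _ => ?_
  rw [prod_mul_distrib, prod_pow_eq_pow_sum, ← map_prod, mul_comm, Polynomial.coeff_C_mul_X_pow]

theorem coeff_esy {ι : Type*} [DecidableEq ι] (s : Finset ι) (d : ι → S) (k : ℕ) :
    (∏ u ∈ s, (1 + Polynomial.X * Polynomial.C (d u))).coeff k =
      ∑ K ∈ s.powerset, if k = K.card then ∏ u ∈ K, d u else 0 := by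
  rw [prod_one_add, Polynomial.finsetSum_coeff]
  refine sum_congr rfl fun K _ => ?_
  rw [prod_mul_distrib, prod_const, ← map_prod, mul_comm, Polynomial.coeff_C_mul_X_pow]

variable {At : Set S} {B : ℕ}

theorem pr_tm (hZ : ∀ z : ℤ, (z : S) ∈ At) {n : ℕ} (hB : n + 1 ≤ B) {b : Fin 4 → S}
    (hb : ∀ i, Pr At (3 * B) (b i)) {o : Option (ℕ × ℕ × ℕ)} (ho : o ∈ Ro n) (i : Fin 4) :
    Pr At (4 * B ^ 2) (b i ^ ex o i) := by
  have h1 := dg_eq ho
  have h2 : ex o i ≤ B := by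
    fin_cases i <;> simp only [Fin.zero_eta, Fin.mk_one, Fin.reduceFinMk] <;> omega
  refine (Pr.pow (by simpa using hZ 0) (by simpa using hZ 1) (hb i) _).le ?_
  nlinarith

theorem pr_gam (hZ : ∀ z : ℤ, (z : S) ∈ At) {n : ℕ} (hB : n + 1 ≤ B) {b : Fin n → Fin 4 → S}
    (hb : ∀ u i, Pr At (3 * B) (b u i)) {r : ℕ} (hr : r ≤ n) :
    Pr At (50 * B ^ 7) ((∏ u, gam n (b u)).coeff r) := by
  have h0 : (0 : S) ∈ At := by simpa using hZ 0
  have h1 : (1 : S) ∈ At := by simpa using hZ 1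
  have g0 : (0 : Polynomial S) ∈ Lp At := by simpa using Lp_int hZ 0
  have g1 : (1 : Polynomial S) ∈ Lp At := by simpa using Lp_int hZ 1
  have hB1 : 1 ≤ B := by omega
  have h2 : ∀ u, Pr (Lp At) (48 * B ^ 5) (gam n (b u)) := fun u => by
    refine (Pr.sum (c := 20 * B ^ 2) g0 _ fun o ho => ((Pr.pow g0 g1 Pr.pX _).mul g0
      (((Pr.atom (hZ _)).mul h0 (Pr.prod h0 h1 _ fun i _ => pr_tm hZ hB (hb u) ho i)).pC h0)).le
        ?_).le ?_
    · have := (dg_eq ho).2
      rw [card_univ, Fintype.card_fin]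
      nlinarith
    · have h3 := card_Ro n
      have h4 : (n + 1) ^ 3 ≤ B ^ 3 := Nat.pow_le_pow_left hB 3
      have h5 : 1 ≤ B ^ 3 := Nat.one_le_pow _ _ hB1
      have h6 : 1 ≤ B ^ 2 := Nat.one_le_pow _ _ hB1
      have h7 : 1 ≤ B ^ 5 := Nat.one_le_pow _ _ hB1
      calc _ ≤ 2 * B ^ 3 * (21 * B ^ 2) + B ^ 5 := by gcongr <;> omega
        _ ≤ _ := by nlinarith
  refine (Pr.coeff h0 h1 (Pr.prod g0 g1 _ fun u _ => h2 u) r).le ?_
  rw [card_univ, Fintype.card_fin]
  have h7 : 1 ≤ B ^ 6 := Nat.one_le_pow _ _ hB1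
  calc _ ≤ (B * (48 * B ^ 5) + B ^ 6) * B := by gcongr <;> omega
    _ ≤ _ := by nlinarith

theorem pr_esy (hZ : ∀ z : ℤ, (z : S) ∈ At) {n : ℕ} (hB : n + 1 ≤ B) {b : Fin n → Fin 4 → S}
    (hb : ∀ u i, Pr At (3 * B) (b u i)) {k : ℕ} (hk : k ≤ n) :
    Pr At (15 * B ^ 3)
      ((∏ u, (1 + Polynomial.X * Polynomial.C (b u 1 + (b u 2 + b u 3)))).coeff k) := by
  have h0 : (0 : S) ∈ At := by simpa using hZ 0
  have h1 : (1 : S) ∈ At := by simpa using hZ 1
  have g0 : (0 : Polynomial S) ∈ Lp At := by simpa using Lp_int hZ 0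
  have g1 : (1 : Polynomial S) ∈ Lp At := by simpa using Lp_int hZ 1
  refine (Pr.coeff h0 h1 (Pr.prod (c := 14 * B) g0 g1 _ fun u _ => ((Pr.atom g1).add
    (Pr.pX.mul g0 (((hb u 1).add ((hb u 2).add (hb u 3))).pC h0))).le (by omega)) k).le ?_
  rw [card_univ, Fintype.card_fin]
  have h7 : 1 ≤ B ^ 2 := Nat.one_le_pow _ _ (by omega)
  calc _ ≤ (B * (14 * B) + B ^ 2) * B := by gcongr <;> omega
    _ = _ := by ring

end

end Pool.Agent.Lib.MP_8b1d3b_lc.Hc
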