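import Pool.Agent.Lib.MP_8b1d3b_lc.Hc.Core
import Pool.Agent.Lib.MP_8b1d3b_lc.Hc.MlA

/-! A product of free rows times an arbitrary program. -/

set_option autoImplicit false

namespace Pool.Agent.Lib.MP_8b1d3b_lc.Hc

open Finset MvPolynomial Gr

variable {κ : Type} [DecidableEq κ] {R : Type*} [CommRing R] {At : Set R}

omit [DecidableEq κ] in
theorem co_comp (S : Finset κ) (p : MvPolynomial κ R) (d : ℕ) :
    co S (weightedHomogeneousComponent (fun _ => 1) d p) = if S.card = d then co S p else 0 := by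
  rw [co_apply, coeff_weightedHomogeneousComponent, weight_ind, sum_const, smul_eq_mul, mul_one]
  rfl

omit [DecidableEq κ] in
theorem co_low (S : Finset κ) (p : MvPolynomial κ R) (d : ℕ) :
    co S (low (fun _ => 1) d p) = if S.card < d then co S p else 0 := by
  rw [co_apply, coeff_low, weight_ind, sum_const, smul_eq_mul, mul_one]
  rfl

theorem co_cut {U : Finset κ} {n : ℕ} (hn : U.card ≤ n) (t : ℕ) (p q : MvPolynomial κ R) :
    co U (p * q) = co U (low (fun _ => 1) t p * q) +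
      ∑ d ∈ Ico t (n + 1), co U (weightedHomogeneousComponent (fun _ => 1) d p * q) := by
  simp only [co_mul, co_low, co_comp]
  rw [sum_comm, ← sum_add_distrib]
  refine sum_congr rfl fun T hT => ?_
  have h1 := card_le_card (mem_powerset.1 hT)
  rw [← sum_mul, ← add_mul, sum_ite_eq]
  by_cases h : T.card < t
  · rw [if_pos h, if_neg (by simp only [mem_Ico]; omega), add_zero]
  · rw [if_neg h, if_pos (by simp only [mem_Ico]; omega), zero_add]

theorem wt_ind (Y S : Finset κ) : wt (fun v => if v ∈ Y then -1 else 0) S = -((S ∩ Y).card : ℤ) := by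
  simp [wt]

theorem disj_of_fil {Y S : Finset κ} {f : MvPolynomial κ R}
    (h : Fil (fun v => if v ∈ Y then -1 else 0) 0 f) (hS : co S f ≠ 0) : Disjoint S Y := by
  have h1 := h S hS
  rw [wt_ind] at h1
  exact disjoint_iff_inter_eq_empty.2 (card_eq_zero.1 (by omega))

theorem fil_C (ω : κ → ℤ) (a : R) : Fil ω 0 (C a : MvPolynomial κ R) := fun S hS => by
  rw [co_C] at hS
  have h1 : S = ∅ := by
    by_contra h
    exact hS (if_neg h)
  simp [h1, wt]

theorem fil_pw {ι : Type*} [Fintype ι] {ω : κ → ℤ} {δ : ℤ} {D : Finset κ} (h : ∀ v ∈ D, δ ≤ ω v)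
    (x : ι → κ → R) (m : ι → ℕ) : Fil ω ((∑ u, m u : ℕ) * δ) (∏ u, lf D (x u) ^ m u) := by
  have h1 := Fil.prod (R := R) (ω := ω) univ (d := fun u => m u * δ)
    (F := fun u => lf D (x u) ^ m u) fun u _ => (Fil.lf _ h).pow _
  rwa [← sum_mul, ← Nat.cast_sum] at h1

theorem supp_pw {ι : Type*} [Fintype ι] {D Y : Finset κ} (h : Disjoint D Y) (x : ι → κ → R)
    (m : ι → ℕ) (S : Finset κ) (hS : co S (∏ u, lf D (x u) ^ m u) ≠ 0) :
    Disjoint S Y ∧ S.card = ∑ u, m u := by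
  refine ⟨disj_of_fil (by
    simpa using fil_pw (ω := fun v => if v ∈ Y then -1 else 0) (δ := 0)
      (fun v hv => by rw [if_neg (disjoint_left.1 h hv)]) x m) hS, ?_⟩
  have h1 := fil_pw (ω := fun _ => 1) (δ := 1) (D := D) (fun _ _ => le_rfl) x m S hS
  have h2 := fil_pw (ω := fun _ => -1) (δ := -1) (D := D) (fun _ _ => le_rfl) x m S hS
  simp only [wt, sum_const, nsmul_eq_mul] at h1 h2
  omega

theorem co_prod_mem {ι : Type*} [DecidableEq ι] (I : Ideal R) (P Q : Finset κ) {c : ι → R}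
    (hc : ∀ u, c u ∈ I) (x : ι → κ → R) (K : Finset ι) (S : Finset κ) :
    co S (∏ u ∈ K, (lf P (x u) + (lf Q (x u) + C (c u)))) ∈ I ^ (K.card - S.card) := by
  induction K using Finset.induction_on generalizing S with
  | empty => simp
  | insert a K ha ih =>
    have h1 : ∀ D : Finset κ, co S ((∏ u ∈ K, (lf P (x u) + (lf Q (x u) + C (c u)))) *
        lf D (x a)) ∈ I ^ (K.card + 1 - S.card) := fun D => by
      rw [co_mul_lf]
      refine sum_mem fun v hv => Ideal.mul_mem_right _ _ (Ideal.pow_le_pow_right ?_ (ih _))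
      have := card_erase_add_one (mem_inter.1 hv).2
      omega
    rw [prod_insert ha, card_insert_of_notMem ha, mul_comm, mul_add, mul_add, map_add, map_add]
    refine add_mem (h1 P) (add_mem (h1 Q) ?_)
    rw [mul_comm, co_C_mul]
    refine Ideal.pow_le_pow_right (n := K.card - S.card + 1) (by omega) ?_
    rw [pow_succ']
    exact Ideal.mul_mem_mul (hc a) (ih S)

/-- the four letters of a row -/
noncomputable def rl (Z P Q : Finset κ) (c : R) (x : κ → R) : Fin 4 → MvPolynomial κ R :=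
  ![lf Z x, lf P x, lf Q x, C c]

/-- the elementary symmetric polynomial of the parts outside `Z` -/
noncomputable def esy {n : ℕ} (P Q : Finset κ) (c : Fin n → R) (x : Fin n → κ → R) (k : ℕ) :
    MvPolynomial κ R :=
  (∏ u, (1 + Polynomial.X * Polynomial.C (lf P (x u) + (lf Q (x u) + C (c u))))).coeff k

theorem esy_mem {n : ℕ} (I : Ideal R) (P Q : Finset κ) {c : Fin n → R} (hc : ∀ u, c u ∈ I)
    (x : Fin n → κ → R) (k : ℕ) (S : Finset κ) : co S (esy P Q c x k) ∈ I ^ (k - S.card) := by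
  rw [esy, coeff_esy, map_sum]
  refine sum_mem fun K _ => ?_
  split_ifs with h
  · exact h ▸ co_prod_mem I P Q hc x K S
  · simp

theorem esy_disj {n : ℕ} {Z P Q : Finset κ} (hZP : Disjoint Z P) (hZQ : Disjoint Z Q)
    (c : Fin n → R) (x : Fin n → κ → R) (k : ℕ) {S : Finset κ} (hS : co S (esy P Q c x k) ≠ 0) :
    Disjoint S Z := by
  rw [esy, coeff_esy, map_sum] at hS
  obtain ⟨K, _, h1⟩ := exists_ne_zero_of_sum_ne_zero hS
  split_ifs at h1 with h
  · refine disj_of_fil ?_ h1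
    simpa using Fil.prod (R := R) (ω := fun v => if v ∈ Z then -1 else 0) K (d := fun _ => 0)
      (F := fun u => lf P (x u) + (lf Q (x u) + C (c u))) fun u _ =>
        (Fil.lf _ fun v hv => by rw [if_neg (disjoint_right.1 hZP hv)]).add
          ((Fil.lf _ fun v hv => by rw [if_neg (disjoint_right.1 hZQ hv)]).add (fil_C _ _))
  · exact absurd (map_zero _) h1

omit [DecidableEq κ] in
theorem prod_tm {n : ℕ} (Z P Q : Finset κ) (c : Fin n → R) (x : Fin n → κ → R)
    (o : Fin n → Option (ℕ × ℕ × ℕ)) : ∏ u, tm (rl Z P Q (c u) (x u)) (o u) =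
      (∏ u, (oe (o u) : MvPolynomial κ R)) * (∏ u, lf Z (x u) ^ ex (o u) 0) *
        (∏ u, lf P (x u) ^ ex (o u) 1) * (∏ u, lf Q (x u) ^ ex (o u) 2) *
        ∏ u, C (c u) ^ ex (o u) 3 := by
  simp only [← prod_mul_distrib]
  refine prod_congr rfl fun u _ => ?_
  simp only [tm, rl, Fin.prod_univ_four, Matrix.cons_val]
  ring

theorem tm_nul {n : ℕ} (Z P Q : Finset κ) (c : Fin n → R) (x : Fin n → κ → R)
    {o : Fin n → Option (ℕ × ℕ × ℕ)} (h : Z.card < (univ.filter fun u => o u ≠ none).card) :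
    ∏ u, tm (rl Z P Q (c u) (x u)) (o u) ∈ Nul κ R := by
  rw [prod_tm]
  refine Ideal.mul_mem_right _ _ (Ideal.mul_mem_right _ _ (Ideal.mul_mem_right _ _
    (Ideal.mul_mem_left _ _ fun S => ?_)))
  by_contra h1
  have h2 := fil_pw (ω := fun v => if v ∈ Z then 1 else 0) (δ := 1) (D := Z)
    (fun v hv => by rw [if_pos hv]) x _ S h1
  have h3 : wt (fun v => if v ∈ Z then 1 else 0) S = ((S ∩ Z).card : ℤ) := by
    simp [wt]
  have h4 := card_le_card (inter_subset_right (s₁ := S) (s₂ := Z))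
  simp only [ex_zero, ← card_filter] at h2
  omega

theorem ml0 (hZ : ∀ z : ℤ, (z : R) ∈ At) {n : ℕ} (I : Ideal R)
    {Z P Q : Finset κ} (hZP : Disjoint Z P) (hZQ : Disjoint Z Q) (hPQ : Disjoint P Q)
    (hn : (Z ∪ P ∪ Q).card ≤ n) (c : Fin n → R) (hc : ∀ u, c u ∈ I)
    (x : Fin n → κ → R) (hx : ∀ u v, x u v ∈ At) {Δ : MvPolynomial κ R} {B : ℕ} (hB : n + 1 ≤ B)
    (hcB : ∀ u, Pr At B (c u)) (hΔ : Pr (Lt κ At) B Δ) {e t G₁ G₂ f : ℕ} (hf : f ≤ n)
    (he : e + 3 * t + Z.card ≤ f)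
    (hG₁ : ∀ j, t ≤ j → j ≤ ((Z ∪ P ∪ Q) \ Z).card → (Hs (Z ∪ P ∪ Q) Z j).card ≤ G₁)
    (hG₁' : 2 ^ ((Z ∪ P ∪ Q) \ Z).card ≤ G₁)
    (hG₂ : ∀ j, t ≤ j → j ≤ P.card → (Hs (Z ∪ P ∪ Q) (Z ∪ Q) j).card ≤ G₂)
    (hG₃ : ∀ j, t ≤ j → j ≤ Q.card → (Hs (Z ∪ P ∪ Q) (Z ∪ P) j).card ≤ G₂)
    (hG₂' : 2 ^ P.card ≤ G₂) (hG₃' : 2 ^ Q.card ≤ G₂) :
    ∃ y : R, co (Z ∪ P ∪ Q) ((∏ u, (1 + Polynomial.X * Polynomial.C
        (lf Z (x u) + (lf P (x u) + (lf Q (x u) + C (c u)))))).coeff f * Δ) - y ∈ I ^ e ∧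
      Pr At (10 ^ 20 * B ^ 50 * (G₁ + (Opt n Z.card).card * G₂)) y := by
  have h0 : (0 : R) ∈ At := by simpa using hZ 0
  have hL := Lt_int (κ := κ) hZ
  have g0 : (0 : MvPolynomial κ R) ∈ Lt κ At := by simpa using hL 0
  have g1 : (1 : MvPolynomial κ R) ∈ Lt κ At := by simpa using hL 1
  have h1 : (1 : R) ∈ At := by simpa using hZ 1
  set U := Z ∪ P ∪ Q with hU
  have hB1 : 1 ≤ B := by omega
  have pw : ∀ i j, i ≤ j → B ^ i ≤ B ^ j := fun i j h => Nat.pow_le_pow_right hB1 h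
  have pz : ∀ j, 1 ≤ B ^ j := fun j => Nat.one_le_pow _ _ hB1
  have p1 : B ≤ B ^ 7 := Nat.le_self_pow (by omega) B
  have hlf : ∀ D ⊆ U, ∀ u, Pr (Lt κ At) (3 * B) (lf D (x u)) := fun D hD u =>
    (Pr.lf h0 D (hx u)).le (by have := card_le_card hD; omega)
  have sZ : Z ⊆ U := subset_union_left.trans subset_union_left
  have sP : P ⊆ U := subset_union_right.trans subset_union_left
  have sQ : Q ⊆ U := subset_union_right
  set b : Fin n → Fin 4 → MvPolynomial κ R := fun u => rl Z P Q (c u) (x u) with hb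
  have hbB : ∀ u i, Pr (Lt κ At) (3 * B) (b u i) := fun u i => by
    fin_cases i
    · exact hlf Z sZ u
    · exact hlf P sP u
    · exact hlf Q sQ u
    · exact ((hcB u).mC h0).le (by omega)
  have hA : ∀ k ≤ n, Pr (Lt κ At) (15 * B ^ 3) (esy P Q c x k) := fun k hk => pr_esy hL hB hbB hk
  have hcore : 30 * (51 * B ^ 7 + 2) ^ 6 ≤ 10 ^ 12 * B ^ 42 := by
    have := pz 7
    calc _ ≤ 30 * (53 * B ^ 7) ^ 6 := by gcongr; omega
      _ = 30 * 53 ^ 6 * B ^ 42 := by ring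
      _ ≤ _ := by omega
  have hsub : ∀ p q : MvPolynomial κ R, p = q → co U p - co U q ∈ I ^ e := fun p q h => by
    rw [h, sub_self]
    exact zero_mem _
  have G1 : 1 ≤ G₁ := Nat.one_le_two_pow.trans hG₁'
  have G2 : 1 ≤ G₂ := Nat.one_le_two_pow.trans hG₂'
  -- the part with many variables in the first factor
  have hyB : Pr At ((f + 1) * ((n + 1 - t) * (10 ^ 12 * B ^ 42 * G₁ + 1) + 1 + 1) + 1)
      (∑ r ∈ range (f + 1), ∑ d ∈ Ico t (n + 1), co U (weightedHomogeneousComponent (fun _ => 1) d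
        (esy P Q c x (f - r)) * ((∏ u, gam n (b u)).coeff r * Δ))) := by
    have h2 := Pr.sum h0 (range (f + 1)) fun r hr => Pr.sum (c := 10 ^ 12 * B ^ 42 * G₁) h0
      (Ico t (n + 1)) (f := fun d => co U (weightedHomogeneousComponent (fun _ => 1) d
        (esy P Q c x (f - r)) * ((∏ u, gam n (b u)).coeff r * Δ))) fun d hd => by
        have h3 := mem_Ico.1 hd
        have h4 := mem_range.1 hr
        refine (core (c := 51 * B ^ 7) (j := d) hZ sZ (fun S hS => ?_)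
          (((hA _ (by omega)).comp h0 h1 _ d).le ?_)
          (((pr_gam hL hB hbB (by omega)).mul g0 hΔ).le ?_) (hG₁ d h3.1) hG₁').le
          (Nat.mul_le_mul_right _ hcore)
        · rw [co_comp] at hS
          split_ifs at hS with h5
          · exact ⟨esy_disj hZP hZQ c x _ hS, h5⟩
          · exact absurd rfl hS
        · have := pw 4 7 (by omega)
          calc _ ≤ 15 * B ^ 3 * B := by gcongr; omega
            _ = 15 * B ^ 4 := by ring
            _ ≤ _ := by omega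
        · omega
    rwa [card_range, Nat.card_Ico] at h2
  -- the part with few variables in the first factor
  have hyC : ∀ o ∈ Opt n Z.card, ∃ y : R, (if ∑ u, dg (o u) ≤ f then co U (low (fun _ => 1) t
      (esy P Q c x (f - ∑ u, dg (o u))) * ((∏ u, tm (b u) (o u)) * Δ)) else 0) - y ∈ I ^ e ∧
      Pr At (10 ^ 12 * B ^ 42 * G₂) y := fun o ho => by
    have hz : Pr At (10 ^ 12 * B ^ 42 * G₂) (0 : R) := (Pr.atom h0).le (by
      have := pz 42
      nlinarith)
    split_ifs with h2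
    swap
    · exact ⟨0, by simp, hz⟩
    obtain ⟨h3, -, h4⟩ := mem_filter.1 ho
    replace h3 := Fintype.mem_piFinset.1 h3
    have h5 : ∀ i, Pr (Lt κ At) (5 * B ^ 3) (∏ u, b u i ^ ex (o u) i) := fun i =>
      (Pr.prod g0 g1 _ fun u _ => pr_tm hL hB (hbB u) (h3 u) i).le (by
        have := pz 3
        rw [card_univ, Fintype.card_fin]
        calc _ ≤ B * (4 * B ^ 2) + B ^ 3 := add_le_add (Nat.mul_le_mul_right _ (by omega)) this
          _ = _ := by ring)
    have h6 : Pr (Lt κ At) (16 * B ^ 4) (low (fun _ => 1) t (esy P Q c x (f - ∑ u, dg (o u)))) :=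
      ((hA _ (by omega)).low h0 h1 _ t).le (by
        have := pz 3
        calc _ ≤ 16 * B ^ 3 * B := Nat.mul_le_mul (by omega) (by omega)
          _ = _ := by ring)
    have h7 : Pr (Lt κ At) B (∏ u, (oe (o u) : MvPolynomial κ R)) :=
      (Pr.prod g0 g1 _ fun u _ => Pr.atom (hL _)).le (by simpa using hB)
    have p3 := pw 3 7 (by omega)
    have p4 := pw 4 7 (by omega)
    rw [prod_tm]
    by_cases k1 : t ≤ ∑ u, ex (o u) 1
    · have h8 : U \ (Z ∪ Q) = P := by
        ext v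
        have : v ∈ Z → v ∉ P := fun h => disjoint_left.1 hZP h
        have : v ∈ P → v ∉ Q := fun h => disjoint_left.1 hPQ h
        simp only [hU, mem_sdiff, mem_union]
        tauto
      refine ⟨_, ?_, (core (c := 51 * B ^ 7) hZ (union_subset sZ sQ)
        (supp_pw (disjoint_union_right.2 ⟨hZP.symm, hPQ⟩) x fun u => ex (o u) 1)
        ((h5 1).le (by omega))
        ((h6.mul g0 ((((h7.mul g0 (h5 0)).mul g0 (h5 2)).mul g0 (h5 3)).mul g0 hΔ)).le (by omega))
        (h8.symm ▸ hG₂ _ k1) (h8.symm ▸ hG₂')).le (Nat.mul_le_mul_right _ hcore)⟩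
      refine hsub _ _ ?_
      simp only [hb, rl, Matrix.cons_val]
      ring
    by_cases k2 : t ≤ ∑ u, ex (o u) 2
    · have h8 : U \ (Z ∪ P) = Q := by
        ext v
        have : v ∈ Z → v ∉ Q := fun h => disjoint_left.1 hZQ h
        have : v ∈ P → v ∉ Q := fun h => disjoint_left.1 hPQ h
        simp only [hU, mem_sdiff, mem_union]
        tauto
      refine ⟨_, ?_, (core (c := 51 * B ^ 7) hZ (union_subset sZ sP)
        (supp_pw (disjoint_union_right.2 ⟨hZQ.symm, hPQ.symm⟩) x fun u => ex (o u) 2)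
        ((h5 2).le (by omega))
        ((h6.mul g0 ((((h7.mul g0 (h5 0)).mul g0 (h5 1)).mul g0 (h5 3)).mul g0 hΔ)).le (by omega))
        (h8.symm ▸ hG₃ _ k2) (h8.symm ▸ hG₃')).le (Nat.mul_le_mul_right _ hcore)⟩
      refine hsub _ _ ?_
      simp only [hb, rl, Matrix.cons_val]
      ring
    refine ⟨0, ?_, hz⟩
    have h8 : ∑ u, dg (o u) = ∑ u, ex (o u) 0 + ∑ u, ex (o u) 1 + ∑ u, ex (o u) 2 +
        ∑ u, ex (o u) 3 := by
      simp only [← sum_add_distrib]
      exact sum_congr rfl fun u _ => (dg_eq (h3 u)).1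
    have h9 : ∑ u, ex (o u) 0 ≤ Z.card := by simpa only [ex_zero, ← card_filter] using h4
    have h10 : ∏ u, c u ^ ex (o u) 3 ∈ I ^ ∑ u, ex (o u) 3 := by
      rw [← prod_pow_eq_pow_sum]
      exact Ideal.prod_mem_prod fun u _ => Ideal.pow_mem_pow (hc u) _
    simp only [← map_pow, ← map_prod]
    rw [sub_zero, mul_comm _ (C _), mul_assoc (C _), mul_left_comm, co_C_mul, co_mul]
    refine Ideal.pow_le_pow_right
      (n := ∑ u, ex (o u) 3 + (f - ∑ u, dg (o u) - t)) (by omega) ?_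
    rw [pow_add]
    refine Ideal.mul_mem_mul h10 (sum_mem fun T _ => Ideal.mul_mem_right _ _ ?_)
    rw [co_low]
    split_ifs with h11
    · exact Ideal.pow_le_pow_right (by omega) (esy_mem I P Q hc x _ T)
    · exact zero_mem _
  choose! y hy1 hy2 using hyC
  refine ⟨_, ?_, (hyB.add (Pr.sum h0 _ hy2)).le ?_⟩
  · have h2 : co U ((∏ u, (1 + Polynomial.X * Polynomial.C
        (lf Z (x u) + (lf P (x u) + (lf Q (x u) + C (c u)))))).coeff f * Δ) =
        ∑ r ∈ range (f + 1), co U (esy P Q c x (f - r) * ((∏ u, gam n (b u)).coeff r * Δ)) := by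
      rw [← map_sum]
      congr 1
      refine (congrArg (· * Δ) (coeff_split hf b)).trans ?_
      rw [sum_mul]
      exact sum_congr rfl fun r _ => mul_assoc _ _ _
    have h3 : ∑ r ∈ range (f + 1), co U (low (fun _ => 1) t (esy P Q c x (f - r)) *
        ((∏ u, gam n (b u)).coeff r * Δ)) = ∑ o ∈ Opt n Z.card, if ∑ u, dg (o u) ≤ f then
          co U (low (fun _ => 1) t (esy P Q c x (f - ∑ u, dg (o u))) *
            ((∏ u, tm (b u) (o u)) * Δ)) else 0 := by
      simp only [coeff_gam, sum_mul, mul_sum, map_sum]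
      rw [sum_comm]
      symm
      refine (sum_subset (filter_subset _ _) fun o ho ho' => ?_).trans
        (sum_congr rfl fun o _ => ?_)
      · split_ifs with h4
        · refine (Ideal.mul_mem_left _ _ (Ideal.mul_mem_right _ _ (tm_nul Z P Q c x ?_)) : _ ∈ Nul κ R) U
          by_contra h5
          exact ho' (mem_filter.2 ⟨ho, by omega, by omega⟩)
        · rfl
      · simp only [ite_mul, zero_mul, mul_ite, mul_zero, apply_ite (co U), map_zero]
        rw [sum_ite_eq']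
        exact if_congr (by simp only [mem_range]; omega) rfl rfl
    rw [h2, sum_congr rfl fun r _ => co_cut hn t _ _, sum_add_distrib, h3, add_comm,
      add_sub_add_left_eq_sub, ← sum_sub_distrib]
    exact sum_mem hy1
  · have p0 := pz 42
    have q1 := pw 44 50 (by omega)
    have p2 := pw 42 50 (by omega)
    have p3 : 1 ≤ B ^ 42 * G₁ := Nat.mul_pos p0 G1
    have p4 : 1 ≤ B ^ 42 * G₂ := Nat.mul_pos p0 G2
    have p5 : 1 ≤ B ^ 50 * G₁ := Nat.mul_pos (by omega) G1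
    have p6 : (f + 1) * ((n + 1 - t) * (10 ^ 12 * B ^ 42 * G₁ + 1) + 1 + 1) ≤
        10 ^ 13 * (B ^ 50 * G₁) :=
      calc _ ≤ B * (B * (2 * 10 ^ 12 * (B ^ 42 * G₁)) + B * (B ^ 42 * G₁) + B * (B ^ 42 * G₁)) := by
            have p7 : 1 ≤ B * (B ^ 42 * G₁) := Nat.mul_pos hB1 p3
            rw [mul_assoc]
            gcongr <;> omega
        _ = (2 * 10 ^ 12 + 2) * (B ^ 44 * G₁) := by ring
        _ ≤ _ := by gcongr; omega
    have p7 : (Opt n Z.card).card * (10 ^ 12 * B ^ 42 * G₂ + 1) ≤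
        10 ^ 20 * (B ^ 50 * ((Opt n Z.card).card * G₂)) :=
      calc _ ≤ (Opt n Z.card).card * (10 ^ 20 * (B ^ 50 * G₂)) := by
            have p8 : B ^ 42 * G₂ ≤ B ^ 50 * G₂ := Nat.mul_le_mul_right _ p2
            rw [mul_assoc]
            gcongr
            omega
        _ = _ := by ring
    rw [mul_assoc (10 ^ 20), mul_add (B ^ 50), mul_add (10 ^ 20)]
    omega

theorem ml (hZ : ∀ z : ℤ, (z : R) ∈ At) {n : ℕ} (I : Ideal R) (F : Finset (Fin n))
    {Z P Q : Finset κ} (hZP : Disjoint Z P) (hZQ : Disjoint Z Q) (hPQ : Disjoint P Q)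
    (hn : (Z ∪ P ∪ Q).card ≤ n) (c : Fin n → R) (hc : ∀ u ∈ F, c u ∈ I)
    (x : Fin n → κ → R) (hx : ∀ u v, x u v ∈ At) {Δ : MvPolynomial κ R} {B : ℕ} (hB : n + 1 ≤ B)
    (hcB : ∀ u, Pr At B (c u)) (hΔ : Pr (Lt κ At) B Δ) {e t G₁ G₂ : ℕ}
    (he : e + 3 * t + Z.card ≤ F.card)
    (hG₁ : ∀ j, t ≤ j → j ≤ ((Z ∪ P ∪ Q) \ Z).card → (Hs (Z ∪ P ∪ Q) Z j).card ≤ G₁)
    (hG₁' : 2 ^ ((Z ∪ P ∪ Q) \ Z).card ≤ G₁)
    (hG₂ : ∀ j, t ≤ j → j ≤ P.card → (Hs (Z ∪ P ∪ Q) (Z ∪ Q) j).card ≤ G₂)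
    (hG₃ : ∀ j, t ≤ j → j ≤ Q.card → (Hs (Z ∪ P ∪ Q) (Z ∪ P) j).card ≤ G₂)
    (hG₂' : 2 ^ P.card ≤ G₂) (hG₃' : 2 ^ Q.card ≤ G₂) :
    ∃ y : R, co (Z ∪ P ∪ Q) ((∏ u ∈ F, (C (c u) + lf (Z ∪ P ∪ Q) (x u))) * Δ) - y ∈ I ^ e ∧
      Pr At (10 ^ 20 * B ^ 50 * (G₁ + (Opt n Z.card).card * G₂)) y := by
  have h0 : (0 : R) ∈ At := by simpa using hZ 0
  have hF : F.card ≤ n := (card_le_univ F).trans (by simp)
  obtain ⟨y, h1, h2⟩ := ml0 hZ I hZP hZQ hPQ hn (fun u => if u ∈ F then c u else 0)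
    (fun u => by split_ifs with h; exacts [hc u h, zero_mem _])
    (fun u v => if u ∈ F then x u v else 0) (fun u v => by split_ifs; exacts [hx u v, h0]) hB
    (fun u => by split_ifs; exacts [hcB u, (Pr.atom h0).le (by omega)]) hΔ hF he hG₁ hG₁' hG₂ hG₃
    hG₂' hG₃'
  refine ⟨y, ?_, h2⟩
  convert h1 using 4
  rw [← prod_subset (subset_univ F) fun u _ hu => by simp [hu, lf], coeff_esy,
    sum_eq_single F (fun K hK hne => if_neg fun h =>
      hne (eq_of_subset_of_card_le (mem_powerset.1 hK) h.le))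
      fun h => absurd (mem_powerset_self F) h, if_pos rfl]
  refine prod_congr rfl fun u hu => ?_
  simp only [if_pos hu, lf]
  rw [sum_union (disjoint_union_left.2 ⟨hZQ, hPQ⟩), sum_union hZP]
  ring

end Pool.Agent.Lib.MP_8b1d3b_lc.Hc
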