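import Pool.Agent.Lib.MP_8b1d3b_lc.Hc.Defs

/-! Transfer of skew programs along families of additive maps. -/

set_option autoImplicit false

namespace Pool.Agent.Lib.MP_8b1d3b_lc.Hc

open Finset MvPolynomial Gr

variable {R : Type*} [CommRing R] {At : Set R} {c c' : ℕ} {x y : R}

theorem transfer {S : Type*} [CommRing S] {At' : Set S} {A : Set R} (h0 : (0 : R) ∈ At)
    {ι : Type*} (D : Finset ι) (π : ι → S →+ R)
    (h1 : ∀ z ∈ At', ∀ i ∈ D, Reach At A 1 {π i z})
    (h2 : ∀ z ∈ At', ∀ i ∈ D, (∀ g, π i (g * z) = 0) ∨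
      ∃ i' ∈ D, ∃ a ∈ At, ∀ g, π i (g * z) = π i' g * a)
    {p : S} (h : Pr At' c p) :
    Reach At A (c * D.card) ((fun i => π i p) '' (D : Set ι)) := by
  obtain ⟨g, n, hn, hv, hp⟩ := Reach.st h
  obtain ⟨m, hm, rfl⟩ := hp p rfl
  have key := Reach.chain (At := At) (c := D.card)
    (fun k => A ∪ {y | ∃ i ∈ D, ∃ j < k, y = π i (g j)}) n fun k hk => by
      have h3 : Reach At (A ∪ {y | ∃ i ∈ D, ∃ j < k, y = π i (g j)}) (D.card * 1)
          ((fun i => π i (g k)) '' (D : Set ι)) := Reach.image D fun i hi => by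
        have h6 : ∀ i ∈ D, ∀ j < k, Reach At (A ∪ {y | ∃ i ∈ D, ∃ j < k, y = π i (g j)}) 0
            {π i (g j)} := fun i hi j hj => Reach.of_mem (Set.mem_union_right _ ⟨i, hi, j, hj, rfl⟩)
        rcases hv k hk with h4 | ⟨a, ha, ⟨b, hb, h4⟩ | ⟨z, hz, h4⟩⟩
        · exact (h1 _ h4 i hi).mono Set.subset_union_left le_rfl subset_rfl
        · rw [h4, map_add]
          exact (h6 i hi a ha).add (h6 i hi b hb)
        · rcases h2 z hz i hi with h5 | ⟨i', hi', y, hy, h5⟩
          · rw [h4, h5]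
            exact Reach.atom h0
          · rw [h4, h5]
            exact (h6 i' hi' a ha).mul hy
      refine ((Reach.of_subset subset_rfl).union h3).mono subset_rfl (by omega) ?_
      rintro y (hy | ⟨i, hi, j, hj, rfl⟩)
      · exact Or.inl (Or.inl hy)
      · rcases (Nat.lt_succ_iff.1 hj).lt_or_eq with hj | rfl
        · exact Or.inl (Or.inr ⟨i, hi, j, hj, rfl⟩)
        · exact Or.inr ⟨i, hi, rfl⟩
  refine key.mono ?_ (Nat.mul_le_mul_right _ hn) ?_
  · rintro y (hy | ⟨i, _, j, hj, _⟩)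
    · exact hy
    · omega
  · rintro _ ⟨i, hi, rfl⟩
    exact Or.inr ⟨i, hi, m, hm, rfl⟩

theorem Pr.le (h : Pr At c x) (hc : c ≤ c') : Pr At c' x := Reach.le h hc

theorem Pr.atom (h : x ∈ At) : Pr At 1 x := Reach.atom h

theorem Pr.add (h : Pr At c x) (h' : Pr At c' y) : Pr At (c + c' + 1) (x + y) := Reach.add h h'

theorem Pr.sum (h0 : (0 : R) ∈ At) {ι : Type*} (s : Finset ι) {f : ι → R}
    (h : ∀ i ∈ s, Pr At c (f i)) : Pr At (s.card * (c + 1) + 1) (∑ i ∈ s, f i) :=
  Reach.sum h0 s h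

theorem Pr.reach {A : Set R} (h : Pr At c x) : Reach At A c {x} :=
  Reach.mono h (Set.empty_subset A) le_rfl subset_rfl

/-- multiplication of an available element by a computable one -/
theorem Pr.step (h0 : (0 : R) ∈ At) {A : Set R} (h : Reach At A c {x}) (h' : Pr At c' y) :
    Reach At A (c + c') {x * y} := by
  refine h.trans ((transfer (A := {x}) h0 {()} (fun _ => AddMonoidHom.mulLeft x)
    (fun z hz _ _ => (Reach.of_mem (A := {x}) rfl).mul hz)
    (fun z hz i hi => Or.inr ⟨i, hi, z, hz, fun g => (mul_assoc x g z).symm⟩) h').mono subset_rfl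
    (by simp) (Set.singleton_subset_iff.2 ⟨(), by simp, rfl⟩))

theorem Pr.mul (h0 : (0 : R) ∈ At) (h : Pr At c x) (h' : Pr At c' y) : Pr At (c + c') (x * y) :=
  Pr.step h0 h h'

theorem Pr.prod (h0 : (0 : R) ∈ At) (h1 : (1 : R) ∈ At) {ι : Type*} (s : Finset ι) {f : ι → R}
    (h : ∀ i ∈ s, Pr At c (f i)) : Pr At (s.card * c + 1) (∏ i ∈ s, f i) := by
  classical
  induction s using Finset.induction_on with
  | empty => simpa using Pr.atom h1
  | insert a s ha ih =>
    rw [prod_insert ha, card_insert_of_notMem ha]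
    exact (Pr.mul h0 (h a (mem_insert_self _ _))
      (ih fun i hi => h i (mem_insert_of_mem hi))).le (le_of_eq (by ring))

theorem Pr.pow (h0 : (0 : R) ∈ At) (h1 : (1 : R) ∈ At) (h : Pr At c x) (k : ℕ) :
    Pr At (k * c + 1) (x ^ k) := by
  simpa using Pr.prod h0 h1 (range k) (f := fun _ => x) fun _ _ => h

theorem Pr.sub (hZ : ∀ z : ℤ, (z : R) ∈ At) (h : Pr At c x) (h' : Pr At c' y) :
    Pr At (c + c' + 2) (x - y) := by
  have h1 := h.add (Reach.mul h' (hZ (-1)))
  rwa [Int.cast_neg, Int.cast_one, mul_neg_one, ← sub_eq_add_neg] at h1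

theorem Pr.map {S : Type*} [CommRing S] {At' : Set S} (h0 : (0 : S) ∈ At') (φ : R →+* S)
    (hφ : ∀ a ∈ At, φ a ∈ At') (h : Pr At c x) : Pr At' c (φ x) :=
  (transfer (A := ∅) h0 {()} (fun _ => φ.toAddMonoidHom) (fun z hz _ _ => Reach.atom (hφ z hz))
    (fun z hz i hi => Or.inr ⟨i, hi, φ z, hφ z hz, fun g => map_mul φ g z⟩) h).mono subset_rfl
    (by simp) (Set.singleton_subset_iff.2 ⟨(), by simp, rfl⟩)

/-- atoms of the polynomial ring in one variable -/
def Lp (At : Set R) : Set (Polynomial R) := {z | z = Polynomial.X ∨ ∃ a ∈ At, z = Polynomial.C a}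

theorem Lp_int (hZ : ∀ z : ℤ, (z : R) ∈ At) (z : ℤ) : (z : Polynomial R) ∈ Lp At :=
  Or.inr ⟨z, hZ z, (map_intCast _ z).symm⟩

theorem Pr.pC (h0 : (0 : R) ∈ At) (h : Pr At c x) : Pr (Lp At) c (Polynomial.C x) :=
  Pr.map (At' := Lp At) (Or.inr ⟨0, h0, (map_zero _).symm⟩) Polynomial.C
    (fun a ha => Or.inr ⟨a, ha, rfl⟩) h

theorem Pr.pX : Pr (Lp At) 1 Polynomial.X := Pr.atom (Or.inl rfl)

theorem Pr.coeff (h0 : (0 : R) ∈ At) (h1 : (1 : R) ∈ At) {p : Polynomial R}
    (h : Pr (Lp At) c p) (d : ℕ) : Pr At (c * (d + 1)) (p.coeff d) := by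
  refine (transfer (A := ∅) h0 (range (d + 1))
    (fun i => (Polynomial.lcoeff R i).toAddMonoidHom) (fun z hz i _ => Reach.atom ?_)
    (fun z hz i hi => ?_) h).mono subset_rfl (by simp)
    (Set.singleton_subset_iff.2 ⟨d, by simp, rfl⟩)
  · change z.coeff i ∈ At
    rcases hz with rfl | ⟨a, ha, rfl⟩
    · rw [Polynomial.coeff_X]
      split_ifs <;> assumption
    · rw [Polynomial.coeff_C]
      split_ifs <;> assumption
  · rcases hz with rfl | ⟨a, ha, rfl⟩
    · rcases i with _ | i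
      · exact Or.inl fun g => Polynomial.coeff_mul_X_zero g
      · exact Or.inr ⟨i, mem_range.2 (by have := mem_range.1 hi; omega), 1, h1, fun g =>
          (Polynomial.coeff_mul_X g i).trans (mul_one _).symm⟩
    · exact Or.inr ⟨i, hi, a, ha, fun g => Polynomial.coeff_mul_C g i a⟩

variable {κ : Type}

theorem Lt_int (hZ : ∀ z : ℤ, (z : R) ∈ At) (z : ℤ) : (z : MvPolynomial κ R) ∈ Lt κ At :=
  Or.inr ⟨z, hZ z, (map_intCast _ z).symm⟩

theorem Lt_zero (h0 : (0 : R) ∈ At) : (0 : MvPolynomial κ R) ∈ Lt κ At :=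
  Or.inr ⟨0, h0, (map_zero _).symm⟩

theorem Lt_X (v : κ) : (X v : MvPolynomial κ R) ∈ Lt κ At := Or.inl ⟨v, rfl⟩

theorem Pr.mC (h0 : (0 : R) ∈ At) (h : Pr At c x) : Pr (Lt κ At) c (C x) :=
  Pr.map (At' := Lt κ At) (Or.inr ⟨0, h0, (map_zero _).symm⟩) C
    (fun a ha => Or.inr ⟨a, ha, rfl⟩) h

theorem Pr.mX (v : κ) : Pr (Lt κ At) 1 (X v) := Pr.atom (Or.inl ⟨v, rfl⟩)

theorem Pr.lf (h0 : (0 : R) ∈ At) (D : Finset κ) {a : κ → R} (ha : ∀ v, a v ∈ At) :
    Pr (Lt κ At) (D.card * 3 + 1) (lf D a) :=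
  Pr.sum (c := 2) (Lt_zero h0) D fun v _ => Reach.mul (Pr.mC h0 (Pr.atom (ha v))) (Lt_X v)

theorem coeff_low (w : κ → ℕ) (e : ℕ) (p : MvPolynomial κ R) (d : κ →₀ ℕ) :
    MvPolynomial.coeff d (low w e p) =
      if Finsupp.weight w d < e then MvPolynomial.coeff d p else 0 := by
  classical
  rw [low, LinearMap.sum_apply, coeff_sum]
  simp only [coeff_weightedHomogeneousComponent]
  rw [sum_ite_eq]
  simp only [mem_range]

theorem comps (h0 : (0 : R) ∈ At) (w : κ → ℕ) {p : MvPolynomial κ R}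
    (h : Pr (Lt κ At) c p) (e : ℕ) : Reach (Lt κ At) ∅ (c * e)
      ((fun i => weightedHomogeneousComponent w i p) '' (range e : Set ℕ)) := by
  classical
  have hz : (0 : MvPolynomial κ R) ∈ Lt κ At := Or.inr ⟨0, h0, (map_zero _).symm⟩
  refine (transfer (A := ∅) hz (range e)
    (fun i => (weightedHomogeneousComponent w i).toAddMonoidHom) (fun z hz' i _ => Reach.atom ?_)
    (fun z hz' i hi => ?_) h).le (by simp)
  · change weightedHomogeneousComponent w i z ∈ _
    obtain ⟨m, hm⟩ : ∃ m, IsWeightedHomogeneous w z m := by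
      rcases hz' with ⟨v, rfl⟩ | ⟨a, _, rfl⟩
      · exact ⟨_, isWeightedHomogeneous_X R w v⟩
      · exact ⟨_, isWeightedHomogeneous_C w a⟩
    rw [weightedHomogeneousComponent_of_mem hm]
    split_ifs <;> assumption
  · rcases hz' with ⟨v, rfl⟩ | ⟨a, ha, rfl⟩
    · have h3 : ∀ d : κ →₀ ℕ, v ∈ d.support →
          Finsupp.weight w d = Finsupp.weight w (d - Finsupp.single v 1) + w v := fun d hd => by
        have h4 : Finsupp.single v 1 ≤ d :=
          Finsupp.single_le_iff.2 (Nat.pos_of_ne_zero (Finsupp.mem_support_iff.1 hd))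
        conv_lhs => rw [← tsub_add_cancel_of_le h4, map_add, Finsupp.weight_single, one_smul]
      by_cases h4 : w v ≤ i
      · refine Or.inr ⟨i - w v, mem_range.2 (by have := mem_range.1 hi; omega), X v,
          Or.inl ⟨v, rfl⟩, fun g => ?_⟩
        ext d
        change coeff d (weightedHomogeneousComponent w i (g * X v)) =
          coeff d (weightedHomogeneousComponent w (i - w v) g * X v)
        rw [coeff_weightedHomogeneousComponent, coeff_mul_X', coeff_mul_X',
          coeff_weightedHomogeneousComponent]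
        by_cases h5 : v ∈ d.support
        · rw [if_pos h5, if_pos h5, h3 d h5]
          exact if_congr (by omega) rfl rfl
        · simp only [if_neg h5, ite_self]
      · refine Or.inl fun g => ?_
        ext d
        change coeff d (weightedHomogeneousComponent w i (g * X v)) = _
        rw [coeff_weightedHomogeneousComponent, coeff_mul_X', coeff_zero]
        by_cases h5 : v ∈ d.support
        · rw [h3 d h5, if_neg (by omega)]
        · simp only [if_neg h5, ite_self]
    · refine Or.inr ⟨i, hi, C a, Or.inr ⟨a, ha, rfl⟩, fun g => ?_⟩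
      change weightedHomogeneousComponent w i (g * C a) = weightedHomogeneousComponent w i g * C a
      rw [mul_comm, weightedHomogeneousComponent_C_mul, mul_comm]

theorem Pr.comp (h0 : (0 : R) ∈ At) (_h1 : (1 : R) ∈ At) (w : κ → ℕ) {p : MvPolynomial κ R}
    (h : Pr (Lt κ At) c p) (d : ℕ) :
    Pr (Lt κ At) (c * (d + 1)) (weightedHomogeneousComponent w d p) :=
  (comps h0 w h (d + 1)).mono subset_rfl le_rfl (Set.singleton_subset_iff.2 ⟨d, by simp, rfl⟩)

theorem Pr.low (h0 : (0 : R) ∈ At) (_h1 : (1 : R) ∈ At) (w : κ → ℕ) {p : MvPolynomial κ R}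
    (h : Pr (Lt κ At) c p) (e : ℕ) : Pr (Lt κ At) ((c + 1) * (e + 1)) (low w e p) := by
  rw [Hc.low, LinearMap.sum_apply]
  refine ((comps h0 w h e).trans (Reach.sum (c := 0) (Lt_zero h0) (range e)
    fun i hi => Reach.of_mem (Set.mem_image_of_mem _ hi))).le ?_
  rw [card_range]
  nlinarith

theorem low_of_hi {w : κ → ℕ} {e : ℕ} {p : MvPolynomial κ R} (h : p ∈ Hi R w 1 ^ e) :
    low w e p = 0 := by
  classical
  have h1 : ∀ k, Hi R w 1 ^ k ≤ Hi R w k := fun k => by
    induction k with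
    | zero => exact fun p _ d _ => Nat.zero_le _
    | succ k ih =>
      rw [pow_succ]
      refine Ideal.mul_le.2 fun a ha b hb d hd => ?_
      rw [coeff_mul] at hd
      obtain ⟨x, hx, h2⟩ := exists_ne_zero_of_sum_ne_zero hd
      rw [← mem_antidiagonal.1 hx, map_add]
      exact Nat.add_le_add (ih ha _ (left_ne_zero_of_mul h2)) (hb _ (right_ne_zero_of_mul h2))
  ext d
  rw [coeff_low, coeff_zero]
  split_ifs with h2
  · by_contra h3
    exact absurd (h1 e h d h3) (by omega)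
  · rfl

variable [DecidableEq κ]

omit [DecidableEq κ] in
theorem weight_ind {M : Type*} [AddCommMonoid M] (w : κ → M) (S : Finset κ) :
    Finsupp.weight w (ind S) = ∑ v ∈ S, w v := by
  rw [ind, map_sum]
  exact sum_congr rfl fun v _ => by rw [Finsupp.weight_single, one_smul]

/-- all squarefree coefficients inside `U` -/
theorem down (h0 : (0 : R) ∈ At) (h1 : (1 : R) ∈ At) (U : Finset κ) {p : MvPolynomial κ R}
    (h : Pr (Lt κ At) c p) :
    Reach At ∅ (c * 2 ^ U.card) ((fun S => co S p) '' (U.powerset : Set (Finset κ))) := by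
  refine (transfer (A := ∅) h0 U.powerset (fun S => (co S).toAddMonoidHom)
    (fun z hz S _ => Reach.atom ?_) (fun z hz S hS => ?_) h).le (by simp)
  · change co S z ∈ At
    rcases hz with ⟨v, rfl⟩ | ⟨a, ha, rfl⟩
    · rw [← one_mul (X v), co_mul_X, co_one]
      split_ifs <;> assumption
    · rw [co_C]
      split_ifs <;> assumption
  · rcases hz with ⟨v, rfl⟩ | ⟨a, ha, rfl⟩
    · by_cases hv : v ∈ S
      · exact Or.inr ⟨S.erase v, mem_powerset.2 ((erase_subset _ _).trans (mem_powerset.1 hS)), 1,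
          h1, fun g => (co_mul_X S v g).trans ((if_pos hv).trans (mul_one _).symm)⟩
      · exact Or.inl fun g => (co_mul_X S v g).trans (if_neg hv)
    · refine Or.inr ⟨S, hS, a, ha, fun g => ?_⟩
      change co S (g * C a) = co S g * a
      rw [mul_comm, co_C_mul, mul_comm]

theorem plain (h0 : (0 : R) ∈ At) (h1 : (1 : R) ∈ At) (U : Finset κ) {p : MvPolynomial κ R}
    (h : Pr (Lt κ At) c p) : Pr At (c * 2 ^ U.card) (co U p) :=
  (down h0 h1 U h).mono subset_rfl le_rfl
    (Set.singleton_subset_iff.2 ⟨U, by simp, rfl⟩)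

end Pool.Agent.Lib.MP_8b1d3b_lc.Hc
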